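import Pool.Agent.H65.OVN.Defs
import Pool.Agent.H48.M5.Stmts

/-!
# Own-visibility: the rows

`NKStmt`: the prediction lemma N1 for a time in dimension `n`. `RECStmt`: coefficients after a
change of coordinates. `BOXStmt`: one radius.
-/

set_option autoImplicit false

namespace Pool.OVN

open Finset Real MvPolynomial
open Pool.Agent.H49.Ent Pool.Agent.H32.Dense Pool.STK

/-! ### N1 in several variables -/

/-- The data of the prediction lemma in `n` variables. -/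
structure KDat (n K : ℕ) where
  Om : Type
  Lam : Type
  Tau : Type
  [fin : Fintype Om]
  P : Om → ℝ
  L : Om → Lam
  T : Om → Tau
  v : Lam → Pool.M5.Mon n K → ℤ
  N : Om → ℤ
  th : Tau → Fin n → ℝ
  X : ℕ

attribute [instance] KDat.fin

namespace KDat

variable {n K : ℕ} (d : KDat n K)

/-- The rows: the unknown numbers `v s` are the coefficients of the monomials of degree
`1, …, K`. -/
noncomputable def toR : Pool.M5.RDat where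
  Om := d.Om
  Lam := d.Lam
  Tau := d.Tau
  Nu := Pool.M5.Mon n K → ℤ
  P := d.P
  L := d.L
  T := d.T
  V := d.v
  N := d.N
  ZR := fun t₁ t₀ v => ∑ s, (v s / 2 ^ d.X) *
    (Pool.M5.mono (s : Fin n → ℕ) (d.th t₀) - Pool.M5.mono (s : Fin n → ℕ) (d.th t₁))
  X := d.X

/-- The basic assumptions. -/
structure OK (A : ℕ) : Prop where
  law : IsLaw d.P
  hv : ∀ l s, |(d.v l s : ℝ) / 2 ^ d.X| ≤ 1
  hN : Det d.P (fun ω => (d.L ω, d.T ω)) d.N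
  hth : ∀ t j, 0 ≤ d.th t j ∧ d.th t j < 1
  hZ : ∀ ω ω', 0 < d.P ω → 0 < d.P ω' → d.L ω = d.L ω' →
    |((d.N ω' : ℝ) - d.N ω) - 2 ^ d.X * d.toR.ZR (d.T ω) (d.T ω') (d.v (d.L ω))| ≤ 2 ^ A

/-- (H1) the time is nearly independent of the line and its digits are full; the first `k'`
digits have a deficit at most `ε'`. -/
def H1 (ι : ℝ) (k' : ℕ) (ε' : ℝ) : Prop :=
  Pool.KVA.MI d.P d.T d.L (fun _ => ()) ≤ ι * d.X ∧
  (n - ι) * d.X * Real.log 2 ≤ CH d.P (fun ω => fl d.X (d.th (d.T ω))) d.L ∧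
  n * (k' * Real.log 2) - ε' ≤ CH d.P (fun ω => fl k' (d.th (d.T ω))) d.L

end KDat

/-- **NK**: N1 in `n` variables. -/
def NKStmt : Prop :=
  ∀ (n K A : ℕ) (c ε : ℝ), 0 < c → 0 < ε → ∃ (κ π₀ ι ε' : ℝ) (k' X₀ : ℕ), 0 < κ ∧ κ ≤ 1 ∧
    0 < π₀ ∧ 0 < ι ∧ 0 < ε' ∧ ∀ d : KDat n K, d.OK A → X₀ ≤ d.X → d.H1 ι k' ε' → d.toR.H2 ι →
      d.toR.H5 c κ π₀ ∅ → H d.P (fun ω => d.v (d.L ω)) ≤ ε * d.X * Real.log 2

/-! ### Coefficients -/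

/-- **REC**: the coefficients after the substitution `z ↦ h + r z`. -/
def RECStmt : Prop :=
  ∀ (n : ℕ) (A : MvPolynomial (Fin n) ℝ) (r : ℝ) (h : Fin n → ℝ) (s : Fin n →₀ ℕ),
    coeff s (bind₁ (fun j => C (h j) + C r * X j) A) =
      ∑ t ∈ A.support, coeff t A * ∏ j, ((t j).choose (s j) : ℝ) * r ^ (s j) * h j ^ (t j - s j)

/-- **RCA**: from a cell to a smaller cell. -/
def RCAStmt : Prop :=
  ∀ n K : ℕ, ∃ M : ℝ, 1 ≤ M ∧ ∀ (A : MvPolynomial (Fin n) ℝ) (e r : ℝ) (h : Fin n → ℝ),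
    A.totalDegree ≤ K → (∀ t, |coeff t A| ≤ e) → 0 ≤ r → r ≤ 1 → (∀ j, |h j| ≤ 1) →
    ∀ s : Fin n →₀ ℕ, |coeff s (bind₁ (fun j => C (h j) + C r * X j) A)| ≤
      M * e * r ^ (s.sum fun _ k => k)

/-- **RCB**: from a cell to a larger cell. -/
def RCBStmt : Prop :=
  ∀ n K : ℕ, ∃ M : ℝ, 1 ≤ M ∧ ∀ (A : MvPolynomial (Fin n) ℝ) (e₀ e₁ R : ℝ) (h : Fin n → ℝ),
    A.totalDegree ≤ K → |coeff 0 A| ≤ e₀ → (∀ t, t ≠ 0 → |coeff t A| ≤ e₁) → 1 ≤ R →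
    e₁ * R ^ K ≤ e₀ → (∀ j, |h j| ≤ R) →
    ∀ s : Fin n →₀ ℕ, |coeff s (bind₁ (fun j => C (h j) + C R * X j) A)| ≤ M * e₀

/-! ### The rows of BOX -/

/-- RDN: the sheet on a cell gives the sheet on a smaller cell. -/
def RDNStmt : Prop :=
  ∀ n K : ℕ, ∃ C : ℝ, 0 ≤ C ∧ ∀ (d : SDat n) (a P X : ℕ), IsLaw d.P →
    (∀ l, (d.G l).totalDegree ≤ K) →
    CH d.P (fun ω => (d.ctx (a + X) P ω, d.shp (a + X) (P + X) ω))
      (fun ω => (d.ctx a P ω, d.cel (a + X) ω)) ≤ C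

/-- RUP: the sheet on a cell with a better shape gives the sheet on a larger cell. -/
def RUPStmt : Prop :=
  ∀ n K : ℕ, ∃ C : ℝ, 0 ≤ C ∧ ∀ (d : SDat n) (a P X s : ℕ), IsLaw d.P →
    (∀ l, (d.G l).totalDegree ≤ K) → K * s ≤ X →
    CH d.P (d.ctx a P) (fun ω => (d.ctx (a + s) P ω, d.shp (a + s) (P + X) ω)) ≤ C

/-- PCO: the coefficients are bounded by the maximum on the unit cube. -/
def PCOStmt : Prop :=
  ∀ n K : ℕ, ∃ C : ℝ, 1 ≤ C ∧ ∀ (A : MvPolynomial (Fin n) ℝ) (M : ℝ), A.totalDegree ≤ K →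
    (∀ z : Fin n → ℝ, (∀ j, 0 ≤ z j ∧ z j ≤ 1) → |eval z A| ≤ M) → ∀ s, |coeff s A| ≤ C * M

/-- STA: the sheet on the cell of side `2 ^ (-P)` up to `2 ^ (-P)` is known from the point. -/
def STAStmt : Prop :=
  ∀ (n K : ℕ) (D : ℝ), ∃ C : ℝ, 0 ≤ C ∧ ∀ (d : SDat n) (a₀ P Q : ℕ), d.OK K a₀ Q D → a₀ ≤ P →
    P ≤ Q → CH d.P (d.ctx P P) (fun ω => (d.W ω, d.pnt P ω)) ≤ C

/-- HGT: the height is the position in the box, up to a function of the context and of the base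
point. -/
def HGTStmt : Prop :=
  ∀ (n K : ℕ) (D : ℝ), ∃ C : ℕ, ∀ (d : SDat n) (a₀ a P X : ℕ), d.OK K a₀ (P + X) D → a₀ ≤ a →
    a ≤ P → ∃ Φ : (d.Wt × (Fin n → ℤ) × ((Fin n →₀ ℕ) → ℤ)) × (Fin n → ℤ) → ℤ, ∀ ω, 0 < d.P ω →
      |d.ht (P + X) ω - d.nh K a P X ω - Φ (d.ctx a P ω, d.cel (P + X) ω)| ≤ C

/-- **BOX**: one radius. -/
def BOXStmt : Prop :=
  ∀ (n K : ℕ) (c ε D : ℝ), 0 < c → 0 < ε → ∃ (κ π₀ δ₀ C : ℝ) (k' X₀ : ℕ), 0 < κ ∧ κ ≤ 1 ∧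
    0 < π₀ ∧ 0 < δ₀ ∧ 0 ≤ C ∧ ∀ (d : SDat n) (a₀ P X a : ℕ), X₀ ≤ X → d.OK K a₀ (P + X) D →
      d.Full P (P + X) (δ₀ * X) → d.NF c ⌊κ * X⌋₊ P X π₀ → a₀ + X ≤ a → a ≤ P →
      CH d.P (d.shp a (P + X)) (d.ctx a P) ≤ ε * X + C * (d.df a (a + X) +
        X * d.df a (a + k') + d.Mi a P X + (d.fh a P X - d.fh (a - X) P X))

end Pool.OVN
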