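import Pool.Agent.H65.OVN.Stmts

/-!
# OVN: the sheet on a cell, mean value
-/

set_option autoImplicit false

namespace Pool.OVN

open Finset Real MvPolynomial
open Pool.Agent.H49.Ent Pool.Agent.H32.Dense Pool.STK

variable {n : ℕ}

/-- The derivative along a line. -/
theorem hasDerivAt_line (G : MvPolynomial (Fin n) ℝ) (y h : Fin n → ℝ) (t : ℝ) :
    HasDerivAt (fun t : ℝ => eval (fun j => y j + t * h j) G)
      (∑ j, h j * eval (fun j => y j + t * h j) (pderiv j G)) t := by
  induction G using MvPolynomial.induction_on with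
  | C a => simpa using hasDerivAt_const t a
  | add p q hp hq =>
    have h1 := hp.add hq
    simp only [map_add]
    refine h1.congr_deriv ?_
    rw [← Finset.sum_add_distrib]
    refine Finset.sum_congr rfl fun j _ => ?_
    ring
  | mul_X p i hp =>
    have h0 : HasDerivAt (fun t : ℝ => y i + t * h i) (h i) t := by
      simpa using (hasDerivAt_mul_const (h i)).const_add (y i)
    have h1 := hp.mul h0
    simp only [map_mul, eval_X]
    refine h1.congr_deriv ?_
    have h2 : ∀ j, h j * eval (fun j => y j + t * h j) (pderiv j (p * X i)) =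
        h j * eval (fun j => y j + t * h j) (pderiv j p) * (y i + t * h i) +
          if j = i then eval (fun j => y j + t * h j) p * h i else 0 := by
      intro j
      rw [Derivation.leibniz, pderiv_X]
      by_cases hj : j = i
      · subst hj
        simp only [Pi.single_eq_same, smul_eq_mul, mul_one, map_add, map_mul, eval_X, if_true]
        ring
      · rw [Pi.single_eq_of_ne (fun h => hj h.symm), if_neg hj]
        simp only [smul_eq_mul, mul_zero, zero_add, map_mul, eval_X, add_zero]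
        ring
    rw [Finset.sum_congr rfl fun j _ => h2 j, Finset.sum_add_distrib, ← Finset.sum_mul]
    simp

/-- The mean value inequality on a segment. -/
theorem mean_value (G : MvPolynomial (Fin n) ℝ) (y y' : Fin n → ℝ) (D : ℝ)
    (hD : ∀ t : ℝ, 0 ≤ t → t ≤ 1 → ∀ j, |eval (fun j => y j + t * (y' j - y j)) (pderiv j G)| ≤ D) :
    |eval y' G - eval y G| ≤ D * ∑ j, |y' j - y j| := by
  have h1 : ∀ t ∈ Set.Icc (0 : ℝ) 1,
      HasDerivWithinAt (fun t : ℝ => eval (fun j => y j + t * (y' j - y j)) G)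
        (∑ j, (y' j - y j) * eval (fun j => y j + t * (y' j - y j)) (pderiv j G))
        (Set.Icc (0 : ℝ) 1) t := fun t _ => (hasDerivAt_line G y (fun j => y' j - y j) t).hasDerivWithinAt
  have h2 : ∀ t ∈ Set.Ico (0 : ℝ) 1,
      ‖∑ j, (y' j - y j) * eval (fun j => y j + t * (y' j - y j)) (pderiv j G)‖ ≤
        D * ∑ j, |y' j - y j| := by
    intro t ht
    rw [Real.norm_eq_abs]
    refine (Finset.abs_sum_le_sum_abs _ _).trans ?_
    rw [Finset.mul_sum]
    refine Finset.sum_le_sum fun j _ => ?_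
    rw [abs_mul, mul_comm D]
    exact mul_le_mul_of_nonneg_left (hD t ht.1 ht.2.le j) (abs_nonneg _)
  have h3 := norm_image_sub_le_of_norm_deriv_le_segment_01' h1 h2
  simpa using h3

namespace SDat

variable (d : SDat n)

/-- Points of the cell of a point of the support: the sheet varies little. -/
theorem OK.lip {K a₀ Q : ℕ} {D : ℝ} (h : d.OK K a₀ Q D) {ω : d.Om} (hω : 0 < d.P ω) {r : ℕ}
    (hr : a₀ ≤ r) (b b' : Fin n → ℝ) (hb : ∀ j, |b j - d.y ω j| ≤ 1 / 2 ^ r)
    (hb' : ∀ j, |b' j - d.y ω j| ≤ 1 / 2 ^ r) :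
    |eval b' (d.G (d.L ω)) - eval b (d.G (d.L ω))| ≤ D * ∑ j, |b' j - b j| := by
  refine mean_value _ b b' D fun t h0 h1 j => h.grad ω hω _ (fun j => ?_) j
  have e1 : (1 : ℝ) / 2 ^ r ≤ 1 / 2 ^ a₀ :=
    one_div_le_one_div_of_le (by positivity) (pow_le_pow_right₀ (by norm_num) hr)
  refine le_trans ?_ e1
  have e2 : b j + t * (b' j - b j) - d.y ω j =
      (1 - t) * (b j - d.y ω j) + t * (b' j - d.y ω j) := by ring
  rw [e2]
  refine (abs_add_le _ _).trans ?_
  rw [abs_mul, abs_mul, abs_of_nonneg h0, abs_of_nonneg (by linarith : (0 : ℝ) ≤ 1 - t)]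
  have h2 := mul_le_mul_of_nonneg_left (hb j) (by linarith : (0 : ℝ) ≤ 1 - t)
  have h3 := mul_le_mul_of_nonneg_left (hb' j) h0
  nlinarith

/-- Two points in one cell. -/
theorem abs_sub_le_of_cel {r : ℕ} {ω ω' : d.Om} (h : d.cel r ω = d.cel r ω') (j : Fin n) :
    |d.y ω j - d.y ω' j| ≤ 1 / 2 ^ r := by
  have h1 : ⌊(2 : ℝ) ^ r * d.y ω j⌋ = ⌊(2 : ℝ) ^ r * d.y ω' j⌋ := by
    exact congrFun h j
  have h2 := Int.abs_sub_lt_one_of_floor_eq_floor h1
  rw [← mul_sub, abs_mul, abs_of_pos (by positivity : (0 : ℝ) < 2 ^ r)] at h2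
  rw [le_div_iff₀ (by positivity)]
  linarith

end SDat

end Pool.OVN
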