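import Pool.Agent.H54.KVA.Defs2
import Pool.Agent.H56.KAF.Defs
import Pool.Agent.H48.M5.Defs

/-!
# Own-visibility of polynomial graphs: definitions

`SDat n`: a random sheet `x = G (y)` over the base of dimension `n` (positions and time), the point
`(y, x)` on it, side information `W`. `ctx a P`: the side information, the cell of side `2 ^ (-a)`
of the base point, the sheet on this cell up to `2 ^ (-P)`; `shp a Q`: the shape of the sheet on
the cell up to `2 ^ (-Q)` (all coefficients except the constant one).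
-/

set_option autoImplicit false

namespace Pool.OVN

open Finset Real MvPolynomial
open Pool.Agent.H49.Ent Pool.Agent.H32.Dense Pool.STK

/-- The polynomial in the coordinates of the cell of side `2 ^ (-a)` with the corner
`c / 2 ^ a`. -/
noncomputable def pul {n : ℕ} (a : ℕ) (c : Fin n → ℤ) (G : MvPolynomial (Fin n) ℝ) :
    MvPolynomial (Fin n) ℝ :=
  bind₁ (fun j => C ((c j : ℝ) / 2 ^ a) + C (1 / 2 ^ a) * X j) G

/-- The rounded coefficients. -/
noncomputable def hz {n : ℕ} (P : ℕ) (G : MvPolynomial (Fin n) ℝ) (s : Fin n →₀ ℕ) : ℤ :=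
  ⌊(2 : ℝ) ^ P * coeff s G⌋

/-- A random sheet with a random point on it. -/
structure SDat (n : ℕ) where
  /-- the sample space -/
  Om : Type
  /-- the sheets -/
  Lam : Type
  /-- the values of the side information -/
  Wt : Type
  [fin : Fintype Om]
  /-- the law -/
  P : Om → ℝ
  /-- the sheet -/
  L : Om → Lam
  /-- the side information -/
  W : Om → Wt
  /-- the polynomial of the sheet -/
  G : Lam → MvPolynomial (Fin n) ℝ
  /-- the base point -/
  y : Om → Fin n → ℝ
  /-- the height -/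
  x : Om → ℝ

attribute [instance] SDat.fin

namespace SDat

variable {n : ℕ} (d : SDat n)

/-- The cell of the base point. -/
noncomputable def cel (a : ℕ) (ω : d.Om) : Fin n → ℤ := fl a (d.y ω)

/-- The height. -/
noncomputable def ht (r : ℕ) (ω : d.Om) : ℤ := ⌊(2 : ℝ) ^ r * d.x ω⌋

/-- The point at the resolution `r`. -/
noncomputable def pnt (r : ℕ) (ω : d.Om) : (Fin n → ℤ) × ℤ := (d.cel r ω, d.ht r ω)

/-- The sheet in the coordinates of the cell. -/
noncomputable def ger (a : ℕ) (ω : d.Om) : MvPolynomial (Fin n) ℝ :=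
  pul a (d.cel a ω) (d.G (d.L ω))

/-- The context: the cell and the sheet on the cell up to `2 ^ (-P)`. -/
noncomputable def ctx (a P : ℕ) (ω : d.Om) : d.Wt × (Fin n → ℤ) × ((Fin n →₀ ℕ) → ℤ) :=
  (d.W ω, d.cel a ω, hz P (d.ger a ω))

open Classical in
/-- The shape of the sheet on the cell up to `2 ^ (-Q)`. -/
noncomputable def shp (a Q : ℕ) (ω : d.Om) : (Fin n →₀ ℕ) → ℤ :=
  fun s => if s = 0 then 0 else hz Q (d.ger a ω) s

/-- The basic assumptions: degree at most `K`, the point is on the sheet up to `2 ^ (-Q)`, the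
gradient is at most `D` on the ball of radius `2 ^ (-a₀)` around the base point. -/
structure OK (K a₀ Q : ℕ) (D : ℝ) : Prop where
  law : IsLaw d.P
  hW : Det d.P d.L d.W
  deg : ∀ l, (d.G l).totalDegree ≤ K
  hx : ∀ ω, 0 < d.P ω → |d.x ω - eval (d.y ω) (d.G (d.L ω))| ≤ 1 / 2 ^ Q
  grad : ∀ ω, 0 < d.P ω → ∀ b : Fin n → ℝ, (∀ j, |b j - d.y ω j| ≤ 1 / 2 ^ a₀) →
    ∀ j, |eval b (pderiv j (d.G (d.L ω)))| ≤ D

/-- (F) Given the sheet and the side information the digits `(a, b]` of the base point are full,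
up to the deficit `δ`. -/
def Full (a b : ℕ) (δ : ℝ) : Prop :=
  n * (((b : ℝ) - a) * Real.log 2) - δ ≤
    CH d.P (d.cel b) (fun ω => ((d.L ω, d.W ω), d.cel a ω))

/-- (U) The blocks of length `h` of the rows `(P, P + X]` are not full, on all events of
probability at least `π₀`. -/
def NF (c : ℝ) (h P X : ℕ) (π₀ : ℝ) : Prop :=
  ∀ j : ℕ, (j + 1) * h ≤ X → ∀ E : Set d.Om, π₀ ≤ Pool.KAF.Pr d.P E →
    CH (cond d.P (fun ω => ω ∈ E) True) (d.pnt (P + (j + 1) * h))
      (fun ω => (d.pnt (P + j * h) ω, d.W ω)) ≤ (n + 1 - c) * (h * Real.log 2)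

/-- The deficit of the digits `(a, b]` of the base point given the sheet. -/
noncomputable def df (a b : ℕ) : ℝ :=
  n * (((b : ℝ) - a) * Real.log 2) -
    CH d.P (d.cel b) (fun ω => ((d.L ω, d.W ω), d.cel a ω))

/-- The dependence of the base point and of the next `X` digits of the sheet on the cell of side
`2 ^ (-a)`, given the context. -/
noncomputable def Mi (a P X : ℕ) : ℝ :=
  Pool.KVA.MI d.P (d.cel (P + X)) (d.ctx a (P + X)) (d.ctx a P)

/-- The entropy of the height given the context and the base point. -/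
noncomputable def fh (a P X : ℕ) : ℝ :=
  CH d.P (d.ht (P + X)) (fun ω => (d.ctx a P ω, d.cel (P + X) ω))

open Classical in
/-- The position in the box: the next `X` digits of the height of the sheet after the known
part of the sheet. -/
noncomputable def nh (K a P X : ℕ) (ω : d.Om) : ℤ :=
  ⌊∑ s : Pool.M5.Mon n K, ((hz (P + X) (d.ger a ω) (Finsupp.equivFunOnFinite.symm s) % 2 ^ X : ℤ) : ℝ) *
    Pool.M5.mono (s : Fin n → ℕ) (fun j => Int.fract ((d.cel (P + X) ω j : ℝ) / 2 ^ (P + X - a)))⌋ +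
    hz (P + X) (d.ger a ω) 0 % 2 ^ X

end SDat

/-- **FLAT**: at a row `P` such that the blocks of the next `X` rows are not full, the shape of the
sheet up to `2 ^ (-(P + X))` is a function of the context, for most radii `a`. `δ` is the deficit
of the base point, `Mi a P X` the dependence of the base point and of the digits `(P, P + X]` of
the sheet on the cell (for fixed `a` its sum over the blocks of `X` rows is at most `δ`). -/
def FLATStmt : Prop :=
  ∀ (n K : ℕ) (c ε D : ℝ), 0 < c → 0 < ε → ∃ (κ π₀ δ₀ C : ℝ) (X₀ : ℕ), 0 < κ ∧ κ ≤ 1 ∧ 0 < π₀ ∧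
    0 < δ₀ ∧ 0 ≤ C ∧ ∀ (d : SDat n) (a₀ P X : ℕ) (δ : ℝ), X₀ ≤ X → a₀ ≤ P →
      d.OK K a₀ (P + X) D → d.Full a₀ (P + X) δ → d.Full P (P + X) (δ₀ * X) →
      d.NF c ⌊κ * X⌋₊ P X π₀ →
      ∑ a ∈ Ico (a₀ + X) (P + 1), CH d.P (d.shp a (P + X)) (d.ctx a P) ≤
        ε * X * ((P : ℝ) - a₀) + C * X * (X + δ) + C * ∑ a ∈ Ico (a₀ + X) (P + 1), d.Mi a P X

/-- **OV**: at a row `P` such that the blocks of the next `X` rows are not full, the sheet up to
`2 ^ (-P)` is a function of the point at the resolution `P`, up to a small entropy. -/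
def OVStmt : Prop :=
  ∀ (n K : ℕ) (c ε D : ℝ), 0 < c → 0 < ε → ∃ (κ π₀ δ₀ C : ℝ) (X₀ : ℕ), 0 < κ ∧ κ ≤ 1 ∧ 0 < π₀ ∧
    0 < δ₀ ∧ 0 ≤ C ∧ ∀ (d : SDat n) (a₀ P X : ℕ) (δ : ℝ), X₀ ≤ X → a₀ ≤ P →
      d.OK K a₀ (P + X) D → d.Full a₀ (P + X) δ → d.Full P (P + X) (δ₀ * X) →
      d.NF c ⌊κ * X⌋₊ P X π₀ →
      CH d.P (d.ctx a₀ P) (fun ω => (d.W ω, d.pnt P ω)) ≤
        ε * ((P : ℝ) - a₀) + C * (X + δ) + C / X * ∑ a ∈ Ico (a₀ + X) (P + 1), d.Mi a P X

end Pool.OVN
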