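import Pool.Agent.H65.OVN.Box4

/-!
# OVN, BOX 5: assembly
-/

set_option autoImplicit false

namespace Pool.OVN

open Finset Real MvPolynomial
open Pool.Agent.H49.Ent Pool.Agent.H32.Dense Pool.STK Pool.KVA Pool.KAF

theorem Pr_exists {Ω : Type} [Fintype Ω] {p : Ω → ℝ} (hp : ∀ ω, 0 ≤ p ω) (J : ℕ)
    (F : ℕ → Set Ω) : Pr p {ω | ∃ j < J, ω ∈ F j} ≤ ∑ j ∈ range J, Pr p (F j) := by
  induction J with
  | zero =>
    rw [Finset.range_zero, Finset.sum_empty]
    refine (Pr_mono hp fun ω _ h => ?_).trans (le_of_eq (?_ : Pr p (∅ : Set Ω) = 0))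
    · obtain ⟨j, hj, _⟩ := h
      exact absurd hj (Nat.not_lt_zero j)
    · classical
      rw [Pool.KAF.Pr_eq]
      simp
  | succ J ih =>
    rw [Finset.sum_range_succ]
    refine (Pr_mono hp (F := {ω | ∃ j < J, ω ∈ F j} ∪ F J) fun ω _ h => ?_).trans
      ((Pr_union_le hp _ _).trans (by linarith only [ih]))
    obtain ⟨j, hj, h2⟩ := h
    rcases Nat.lt_succ_iff_lt_or_eq.1 hj with h3 | h3
    · exact Or.inl ⟨j, h3, h2⟩
    · exact Or.inr (h3 ▸ h2)

theorem OK_mono {n : ℕ} {d : SDat n} {K a₀ Q : ℕ} {D D' : ℝ} (h : d.OK K a₀ Q D) (hD : D ≤ D') :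
    d.OK K a₀ Q D' :=
  ⟨h.law, h.hW, h.deg, h.hx, fun ω hω b hb j => (h.grad ω hω b hb j).trans hD⟩

namespace SDat

variable {n : ℕ} (d : SDat n)

/-- One radius, all constants explicit. -/
theorem box_core {K a₀ a P X k' C₁ J : ℕ} {D δ c c₁ π₀ π₁ κ ι ε' ε₁ C₂ X₁ : ℝ}
    (hNK : ∀ d : KDat n K, d.OK 1 → X₁ ≤ d.X → d.H1 ι k' ε' → d.toR.H2 ι →
      d.toR.H5 c₁ κ π₁ ∅ → H d.P (fun ω => d.v (d.L ω)) ≤ ε₁ * d.X * Real.log 2)
    (hX₁ : X₁ ≤ X) (hι : 0 < ι) (hε' : 0 < ε') (hε₁ : 0 ≤ ε₁)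
    (hd : d.OK K a₀ (P + X) D) (hD : 0 ≤ D) (ha : a₀ ≤ a) (haP : a ≤ P) (hXa : X ≤ a)
    (hk : k' ≤ X) (hX0 : 1 ≤ X)
    (Φ : (d.Wt × (Fin n → ℤ) × ((Fin n →₀ ℕ) → ℤ)) × (Fin n → ℤ) → ℤ)
    (hΦ : ∀ ω, 0 < d.P ω →
      |d.ht (P + X) ω - d.nh K a P X ω - Φ (d.ctx a P ω, d.cel (P + X) ω)| ≤ C₁)
    (hR : CH d.P (fun ω => (d.ctx a P ω, d.shp a (P + X) ω))
      (fun ω => (d.ctx (a - X) P ω, d.cel a ω)) ≤ C₂)
    (hF : d.df P (P + X) ≤ δ) (hNF : d.NF c ⌊κ * X⌋₊ P X π₀) (hπ₀ : 0 < π₀) (hπ₁ : 0 < π₁)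
    (hnum : (δ + Real.log 2) / π₀ + Real.log (2 * (3 + n * D) + 1) +
      2 * Real.log (4 * (C₁ + 2) + 1) < (c - c₁) * (⌊κ * X⌋₊ * Real.log 2))
    (hJ : ∀ j : ℕ, (j + 1) * ⌊κ * X⌋₊ ≤ X → j < J) :
    CH d.P (d.shp a (P + X)) (d.ctx a P) ≤ ε₁ * X * Real.log 2 +
      Fintype.card (Pool.M5.Mon n K) * (X * Real.log 2) *
        (d.Mi a P X / (ι * X) + d.df a (a + X) / (ι * X * Real.log 2) + d.df a (a + k') / ε' +
          (d.fh a P X - d.fh (a - X) P X + (2 * Real.log (4 * C₁ + 1) + C₂)) / (ι * X) +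
          J * (π₀ / π₁)) := by
  classical
  have hp := hd.law
  have hp0 := hp.nonneg
  have hl2 : 0 < Real.log 2 := Real.log_pos (by norm_num)
  have hX0' : (0 : ℝ) < X := by exact_mod_cast (show 0 < X by omega)
  set M : ℝ := (Fintype.card (Pool.M5.Mon n K) : ℝ) with hM
  have hM0 : 0 ≤ M := Nat.cast_nonneg _
  set β := d.ctx a P with hβ
  set f1 : d.Om → ℝ := fun ω => MI (cond d.P β (β ω)) (d.cel (P + X)) (d.ld a (P + X))
    (fun _ => ()) with hf1
  set f2 : d.Om → ℝ := fun ω => n * (X * Real.log 2) - CH (cond d.P β (β ω))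
    (fun ω => fl X (thf a (P + X) (d.cel (P + X) ω))) (d.ld a (P + X)) with hf2
  set f3 : d.Om → ℝ := fun ω => n * (k' * Real.log 2) - CH (cond d.P β (β ω))
    (fun ω => fl k' (thf a (P + X) (d.cel (P + X) ω))) (d.ld a (P + X)) with hf3
  set f4 : d.Om → ℝ := fun ω => MI (cond d.P β (β ω)) (d.nh K a P X)
      (fun ω => vf K X (d.ld a (P + X) ω)) (d.cel (P + X)) with hf4
  -- Markov
  have mk : ∀ (f : d.Om → ℝ) (t e : ℝ), (∀ ω, 0 < d.P ω → 0 ≤ f ω) → 0 < t → Ex d.P f ≤ e →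
      Pr d.P {ω | t < f ω} ≤ e / t := by
    intro f t e hf ht he
    have h1 := Pool.OC.FN.markov hp0 (fun ω => max (f ω) 0) (fun ω => le_max_right _ _) ht
    have h2 : Ex d.P (fun ω => max (f ω) 0) = Ex d.P f := by
      unfold Ex
      refine Finset.sum_congr rfl fun ω _ => ?_
      rcases (hp0 ω).eq_or_lt with h0 | h0
      · rw [← h0, zero_mul, zero_mul]
      · show d.P ω * max (f ω) 0 = _
        rw [max_eq_left (hf ω h0)]
    rw [h2] at h1
    refine (Pr_mono hp0 fun ω _ hω => ?_).trans (h1.trans (by gcongr))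
    have hω' : t < f ω := hω
    exact lt_of_lt_of_le hω' (le_max_left _ _)
  have hql : ∀ ω, 0 < d.P ω → IsLaw (cond d.P β (β ω)) := fun ω hω => isLaw_cond' hp β hω
  have m1 : Pr d.P {ω | ι * X < f1 ω} ≤ d.Mi a P X / (ι * X) :=
    mk f1 _ _ (fun ω hω => Pool.M5.MI_nonneg (hql ω hω).nonneg _ _ _) (by positivity)
      (d.Ex_h1 hp a P X).le
  have m2 : Pr d.P {ω | ι * X * Real.log 2 < f2 ω} ≤ d.df a (a + X) / (ι * X * Real.log 2) :=
    mk f2 _ _ (fun ω hω => d.df_term_nonneg a P X X (hql ω hω)) (by positivity)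
      (d.Ex_df a P X X hd (by omega))
  have m3 : Pr d.P {ω | ε' < f3 ω} ≤ d.df a (a + k') / ε' :=
    mk f3 _ _ (fun ω hω => d.df_term_nonneg a P X k' (hql ω hω)) hε'
      (d.Ex_df a P X k' hd (by omega))
  have m4 : Pr d.P {ω | ι * X < f4 ω} ≤
      (d.fh a P X - d.fh (a - X) P X + (2 * Real.log (4 * C₁ + 1) + C₂)) / (ι * X) :=
    mk f4 _ _ (fun ω hω => Pool.M5.MI_nonneg (hql ω hω).nonneg _ _ _) (by positivity)
      (d.Ex_h2 a P X hd haP hXa Φ hΦ hR)
  have m5 : Pr d.P {ω | ∃ j < J, ω ∈ {ω | (j + 1) * ⌊κ * X⌋₊ ≤ X ∧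
      d.Bad K a P X ⌊κ * X⌋₊ j c₁ π₁ (β ω)}} ≤ J * (π₀ / π₁) := by
    refine (Pr_exists hp0 J _).trans ?_
    refine (Finset.sum_le_sum fun j _ => (?_ : _ ≤ π₀ / π₁)).trans (le_of_eq ?_)
    · by_cases hj : (j + 1) * ⌊κ * X⌋₊ ≤ X
      · have h1 := d.bad_le hd hD ha haP Φ hΦ hF hNF hj hπ₀ hπ₁ hnum
        rw [le_div_iff₀ hπ₁, mul_comm]
        refine le_trans (mul_le_mul_of_nonneg_left (Pr_mono hp0 fun ω _ h => h.2) hπ₁.le) h1
      · have : {ω | (j + 1) * ⌊κ * X⌋₊ ≤ X ∧ d.Bad K a P X ⌊κ * X⌋₊ j c₁ π₁ (β ω)} = ∅ := by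
          ext ω
          simp [hj]
        rw [this]
        have h0 : Pr d.P (∅ : Set d.Om) = 0 := by
          rw [Pool.KAF.Pr_eq]
          simp
        rw [h0]
        positivity
    · rw [Finset.sum_const, card_range, nsmul_eq_mul]
  -- the bad set
  set B : Set d.Om := {ω | ι * X < f1 ω} ∪ ({ω | ι * X * Real.log 2 < f2 ω} ∪
    ({ω | ε' < f3 ω} ∪ ({ω | ι * X < f4 ω} ∪ {ω | ∃ j < J, ω ∈ {ω | (j + 1) * ⌊κ * X⌋₊ ≤ X ∧
      d.Bad K a P X ⌊κ * X⌋₊ j c₁ π₁ (β ω)}}))) with hB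
  have mB : Pr d.P B ≤ d.Mi a P X / (ι * X) + d.df a (a + X) / (ι * X * Real.log 2) +
      d.df a (a + k') / ε' +
      (d.fh a P X - d.fh (a - X) P X + (2 * Real.log (4 * C₁ + 1) + C₂)) / (ι * X) +
      J * (π₀ / π₁) := by
    refine (Pr_union_le hp0 _ _).trans ?_
    have h1 := Pr_union_le hp0 {ω | ι * X * Real.log 2 < f2 ω}
      ({ω | ε' < f3 ω} ∪ ({ω | ι * X < f4 ω} ∪ {ω | ∃ j < J, ω ∈ {ω | (j + 1) * ⌊κ * X⌋₊ ≤ X ∧
      d.Bad K a P X ⌊κ * X⌋₊ j c₁ π₁ (β ω)}}))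
    have h2 := Pr_union_le hp0 {ω | ε' < f3 ω}
      ({ω | ι * X < f4 ω} ∪ {ω | ∃ j < J, ω ∈ {ω | (j + 1) * ⌊κ * X⌋₊ ≤ X ∧
      d.Bad K a P X ⌊κ * X⌋₊ j c₁ π₁ (β ω)}})
    have h3 := Pr_union_le hp0 {ω | ι * X < f4 ω} {ω | ∃ j < J, ω ∈ {ω | (j + 1) * ⌊κ * X⌋₊ ≤ X ∧
      d.Bad K a P X ⌊κ * X⌋₊ j c₁ π₁ (β ω)}}
    linarith only [m1, m2, m3, m4, m5, h1, h2, h3]
  -- one context
  have key : ∀ ω, 0 < d.P ω → H (cond d.P β (β ω)) (d.shp a (P + X)) ≤
      ε₁ * X * Real.log 2 + (if ω ∈ B then 1 else 0) * (M * (X * Real.log 2)) := by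
    intro ω hω
    have hq := hql ω hω
    have h1 : H (cond d.P β (β ω)) (d.shp a (P + X)) ≤
        H (cond d.P β (β ω)) (fun ω => vf K X (d.ld a (P + X) ω)) := by
      refine H_mono hq.nonneg fun u u' hu hu' h => ?_
      have g1 := ((cond_pos_iff hp0 _ _ u).1 hu).2
      have g2 := ((cond_pos_iff hp0 _ _ u').1 hu').2
      exact d.shp_det K a P X hd.deg (g1.trans g2.symm) h
    refine h1.trans ?_
    by_cases hωB : ω ∈ B
    · rw [if_pos hωB, one_mul]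
      have h2 := H_box (m := X) hq (fun ω => vf K X (d.ld a (P + X) ω))
        (fun ω _ i => vf_bd K X _ i)
      have h3 : 0 ≤ ε₁ * X * Real.log 2 := by positivity
      linarith only [h2, h3]
    · rw [if_neg hωB, zero_mul, add_zero]
      simp only [hB, Set.mem_union, Set.mem_ofPred_eq, not_or, not_lt, not_exists, not_and] at hωB
      obtain ⟨b1, b2, b3, b4, b5⟩ := hωB
      have h3 := hNK (d.kd K a P X (β ω)) (d.kd_ok K a P X (β ω) hp (law_pos hp0 β hω).ne')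
        hX₁ ⟨b1, ?_, ?_⟩ b4 ?_
      · exact h3
      · have h4 : ((n : ℝ) - ι) * X * Real.log 2 ≤ CH (cond d.P β (β ω))
          (fun ω => fl X (thf a (P + X) (d.cel (P + X) ω))) (d.ld a (P + X)) := by
          have : n * (X * Real.log 2) - CH (cond d.P β (β ω))
            (fun ω => fl X (thf a (P + X) (d.cel (P + X) ω))) (d.ld a (P + X)) ≤
              ι * X * Real.log 2 := b2
          linarith only [b2]
        exact h4
      · have h4 : n * (k' * Real.log 2) - ε' ≤ CH (cond d.P β (β ω))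
          (fun ω => fl k' (thf a (P + X) (d.cel (P + X) ω))) (d.ld a (P + X)) := by
          have : n * (k' * Real.log 2) - CH (cond d.P β (β ω))
            (fun ω => fl k' (thf a (P + X) (d.cel (P + X) ω))) (d.ld a (P + X)) ≤ ε' := b3
          linarith only [b3]
        exact h4
      · intro j _ hj E hE
        have hj' : (j + 1) * ⌊κ * X⌋₊ ≤ X := hj
        by_contra hcon
        exact b5 j (hJ j hj') hj' ⟨E, hE, not_le.1 hcon⟩
  rw [Pool.OCG.CH_eq_Ex hp0]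
  refine (Ex_mono hp0 key).trans ?_
  rw [Ex_add, Ex_const hp.sum_one]
  have h5 : Ex d.P (fun ω => (if ω ∈ B then (1 : ℝ) else 0) * (M * (X * Real.log 2))) =
      Pr d.P B * (M * (X * Real.log 2)) := by
    rw [Pool.KAF.Pr_eq, Finset.sum_mul]
    unfold Ex
    refine Finset.sum_congr rfl fun ω _ => ?_
    show d.P ω * ((if ω ∈ B then (1 : ℝ) else 0) * (M * (X * Real.log 2))) = _
    by_cases h : ω ∈ B
    · rw [if_pos h, if_pos h]
      ring
    · rw [if_neg h, if_neg h]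
      ring
  rw [h5, mul_comm (Pr d.P B)]
  have h6 : 0 ≤ M * (X * Real.log 2) := by positivity
  have h7 := mul_le_mul_of_nonneg_left mB h6
  linarith only [h7]

end SDat

/-- **BOX** from N1. -/
theorem box_thm (hNK : NKStmt) (hRDN : RDNStmt) (hHGT : HGTStmt) : BOXStmt := by
  intro n K c ε D hc hε
  have hl2 : 0 < Real.log 2 := Real.log_pos (by norm_num)
  have hl21 : Real.log 2 ≤ 1 := by
    have := Real.log_two_lt_d9
    linarith only [hl2, this]
  set D' : ℝ := max D 0 with hD'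
  have hD0 : 0 ≤ D' := le_max_right _ _
  obtain ⟨κ, π₁, ι, ε', k', X₁, hκ, hκ1, hπ₁, hι, hε', hN⟩ :=
    hNK n K 1 (c / 2) (ε / 4) (by linarith) (by linarith)
  obtain ⟨C₂, hC₂, hR⟩ := hRDN n K
  obtain ⟨C₁, hΦ⟩ := hHGT n K D'
  set M : ℝ := (Fintype.card (Pool.M5.Mon n K) : ℝ) with hM
  have hM0 : 0 ≤ M := Nat.cast_nonneg _
  set J : ℕ := ⌈2 / κ⌉₊ with hJd
  have hJ0 : 0 < J := Nat.ceil_pos.2 (by positivity)
  have hJ0' : (0 : ℝ) < J := by exact_mod_cast hJ0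
  set π₀ : ℝ := π₁ * ε / (4 * (M + 1) * J) with hπ₀d
  have hπ₀ : 0 < π₀ := by positivity
  set δ₀ : ℝ := π₀ * c * κ * Real.log 2 / 16 with hδ₀d
  have hδ₀ : 0 < δ₀ := by positivity
  set C₃ : ℝ := 2 * Real.log (4 * C₁ + 1) + C₂ with hC₃
  have hC₃0 : 0 ≤ C₃ := by
    have : 0 ≤ Real.log (4 * (C₁ : ℝ) + 1) := Real.log_nonneg (by
      have : (0 : ℝ) ≤ C₁ := Nat.cast_nonneg _
      linarith only)
    linarith only [hC₂, this]
  set C : ℝ := M / ι + M / ε' with hCd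
  have hC0 : 0 ≤ C := by positivity
  set R : ℝ := Real.log 2 / π₀ + Real.log (2 * (3 + n * D') + 1) +
    2 * Real.log (4 * ((C₁ : ℝ) + 2) + 1) with hRd
  obtain ⟨X₂, hX₂⟩ := exists_nat_gt (max (max (2 / κ) (8 * R / (c * κ * Real.log 2)))
    (max (4 * (C * C₃) / ε) 1))
  refine ⟨κ, π₀, δ₀, C, k', max (max X₁ X₂) k', hκ, hκ1, hπ₀, hδ₀, hC0, ?_⟩
  intro d a₀ P X a hX hd hFull hNF haX haP
  have hX1 : X₁ ≤ X := le_trans (le_trans (le_max_left _ _) (le_max_left _ _)) hX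
  have hX2 : X₂ ≤ X := le_trans (le_trans (le_max_right _ _) (le_max_left _ _)) hX
  have hk' : k' ≤ X := le_trans (le_max_right _ _) hX
  have hX2' : (X₂ : ℝ) ≤ X := by exact_mod_cast hX2
  have g := hX₂.trans_le hX2'
  have g1 : 2 / κ < X := lt_of_le_of_lt (le_trans (le_max_left _ _) (le_max_left _ _)) g
  have g2 : 8 * R / (c * κ * Real.log 2) < X :=
    lt_of_le_of_lt (le_trans (le_max_right _ _) (le_max_left _ _)) g
  have g3 : 4 * (C * C₃) / ε < X := lt_of_le_of_lt (le_trans (le_max_left _ _) (le_max_right _ _)) g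
  have g4 : 1 < (X : ℝ) := lt_of_le_of_lt (le_trans (le_max_right _ _) (le_max_right _ _)) g
  have hX0 : (0 : ℝ) < X := by linarith only [g4]
  have hXn : 1 ≤ X := by
    have : (1 : ℝ) < (X : ℝ) := g4
    exact_mod_cast this.le
  rw [div_lt_iff₀ hκ] at g1
  rw [div_lt_iff₀ (by positivity)] at g2
  rw [div_lt_iff₀ hε] at g3
  have hfl : κ * X / 2 ≤ (⌊κ * X⌋₊ : ℝ) := by
    have h1 := Nat.sub_one_lt_floor (κ * X)
    have h2 : X * κ = κ * X := mul_comm _ _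
    rw [h2] at g1
    linarith only [g1, h1]
  have hd' : d.OK K a₀ (P + X) D' := OK_mono hd (le_max_left _ _)
  obtain ⟨Φ, hΦ'⟩ := hΦ d a₀ a P X hd' (by omega) haP
  have hR' := hR d (a - X) P X hd.law hd.deg
  rw [Nat.sub_add_cancel (by omega : X ≤ a)] at hR'
  have hnum : (δ₀ * X + Real.log 2) / π₀ + Real.log (2 * (3 + n * D') + 1) +
      2 * Real.log (4 * ((C₁ : ℝ) + 2) + 1) < (c - c / 2) * (⌊κ * X⌋₊ * Real.log 2) := by
    have e1 : (δ₀ * X + Real.log 2) / π₀ = c * κ * Real.log 2 / 16 * X + Real.log 2 / π₀ := by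
      rw [hδ₀d]
      field_simp
    have e2 : c / 2 * (κ * X / 2 * Real.log 2) ≤ (c - c / 2) * (⌊κ * X⌋₊ * Real.log 2) := by
      have : c - c / 2 = c / 2 := by ring
      rw [this]
      gcongr
    have e3 : 0 < c * κ * Real.log 2 * X := by positivity
    have e4 : c / 2 * (κ * X / 2 * Real.log 2) = c * κ * Real.log 2 * X / 4 := by ring
    have e5 : c * κ * Real.log 2 / 16 * X = c * κ * Real.log 2 * X / 16 := by ring
    have e6 : X * (c * κ * Real.log 2) = c * κ * Real.log 2 * X := by ring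
    rw [e4] at e2
    rw [e1, e5]
    rw [e6, hRd] at g2
    linarith only [g2, e2, e3]
  have hJ : ∀ j : ℕ, (j + 1) * ⌊κ * X⌋₊ ≤ X → j < J := by
    intro j hj
    have h1 : ((j : ℝ) + 1) * (⌊κ * X⌋₊ : ℝ) ≤ X := by exact_mod_cast hj
    have h2 : ((j : ℝ) + 1) * (κ * X / 2) ≤ X :=
      le_trans (mul_le_mul_of_nonneg_left hfl (by positivity)) h1
    have h3 : ((j : ℝ) + 1) ≤ 2 / κ := by
      rw [le_div_iff₀ hκ]
      by_contra hcon
      push Not at hcon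
      have h5 := mul_lt_mul_of_pos_right hcon (by linarith only [g4] : 0 < (X : ℝ) / 2)
      have h6 : ((j : ℝ) + 1) * κ * (X / 2) = ((j : ℝ) + 1) * (κ * X / 2) := by ring
      rw [h6] at h5
      linarith only [h2, h5]
    have h4 : (j : ℝ) < J := by
      have := Nat.le_ceil (2 / κ)
      rw [← hJd] at this
      linarith only [h3, this]
    exact_mod_cast h4
  have main := d.box_core (C₂ := C₂) (δ := δ₀ * X) (X₁ := X₁) (ε₁ := ε / 4)
    (fun d' h1 h2 h3 h4 h5 => hN d' h1 (by exact_mod_cast h2) h3 h4 h5)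
    (by exact_mod_cast hX1) hι hε' (by linarith only [hε]) hd' hD0 (by omega) haP (by omega) hk' hXn Φ hΦ'
    hR' hFull.le hNF hπ₀ hπ₁ hnum hJ
  refine main.trans ?_
  rw [← hM, ← hC₃]
  have hdf1 := d.df_nonneg hd.law (a := a) (b := a + X) (by omega)
  have hdf2 := d.df_nonneg hd.law (a := a) (b := a + k') (by omega)
  have hMi : 0 ≤ d.Mi a P X := Pool.M5.MI_nonneg hd.law.nonneg _ _ _
  have hfh : 0 ≤ d.fh a P X - d.fh (a - X) P X + C₃ := by
    have h1 := d.Ex_h2 (C₂ := C₂) a P X hd' haP (by omega) Φ hΦ' hR'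
    refine le_trans ?_ h1
    exact Ex_nonneg hd.law.nonneg fun ω hω => Pool.M5.MI_nonneg
      (isLaw_cond' hd.law _ hω).nonneg _ _ _
  have hMι : M / ι * Real.log 2 ≤ C := by
    have h1 : 0 ≤ M / ι := by positivity
    have h2 : 0 ≤ M / ε' := by positivity
    have h3 := mul_le_of_le_one_right h1 hl21
    linarith only [h2, h3]
  have hMε : M / ε' * Real.log 2 ≤ C := by
    have h1 : 0 ≤ M / ι := by positivity
    have h2 : 0 ≤ M / ε' := by positivity
    have h3 := mul_le_of_le_one_right h2 hl21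
    linarith only [h1, h3]
  have t1 : M * (X * Real.log 2) * (d.Mi a P X / (ι * X)) ≤ C * d.Mi a P X := by
    have : M * (X * Real.log 2) * (d.Mi a P X / (ι * X)) = M / ι * Real.log 2 * d.Mi a P X := by
      field_simp
    rw [this]
    refine mul_le_mul_of_nonneg_right ?_ hMi
    exact hMι
  have t2 : M * (X * Real.log 2) * (d.df a (a + X) / (ι * X * Real.log 2)) ≤
      C * d.df a (a + X) := by
    have : M * (X * Real.log 2) * (d.df a (a + X) / (ι * X * Real.log 2)) =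
      M / ι * d.df a (a + X) := by
      field_simp
    rw [this]
    refine mul_le_mul_of_nonneg_right ?_ hdf1
    have h2 : 0 ≤ M / ε' := by positivity
    linarith only [h2]
  have t3 : M * (X * Real.log 2) * (d.df a (a + k') / ε') ≤ C * (X * d.df a (a + k')) := by
    have : M * (X * Real.log 2) * (d.df a (a + k') / ε') =
      M / ε' * Real.log 2 * (X * d.df a (a + k')) := by
      field_simp
    rw [this]
    refine mul_le_mul_of_nonneg_right ?_ (by positivity)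
    exact hMε
  have t4 : M * (X * Real.log 2) * ((d.fh a P X - d.fh (a - X) P X + C₃) / (ι * X)) ≤
      C * (d.fh a P X - d.fh (a - X) P X) + ε / 4 * X := by
    have : M * (X * Real.log 2) * ((d.fh a P X - d.fh (a - X) P X + C₃) / (ι * X)) =
      M / ι * Real.log 2 * (d.fh a P X - d.fh (a - X) P X + C₃) := by
      field_simp
    rw [this]
    have h1 : M / ι * Real.log 2 * (d.fh a P X - d.fh (a - X) P X + C₃) ≤
        C * (d.fh a P X - d.fh (a - X) P X + C₃) := by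
      refine mul_le_mul_of_nonneg_right ?_ hfh
      exact hMι
    linarith only [g3, h1]
  have t5 : M * (X * Real.log 2) * (J * (π₀ / π₁)) ≤ ε / 4 * X := by
    have : M * (X * Real.log 2) * (J * (π₀ / π₁)) =
        (M / (M + 1)) * Real.log 2 * (ε / 4 * X) := by
      rw [hπ₀d]
      field_simp
    rw [this]
    have h1 : M / (M + 1) ≤ 1 := by
      rw [div_le_one (by positivity)]
      linarith only
    have h2 : (M / (M + 1)) * Real.log 2 ≤ 1 := by
      have : 0 ≤ M / (M + 1) := by positivity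
      exact (mul_le_of_le_one_right this hl21).trans h1
    have h3 : 0 ≤ ε / 4 * X := by positivity
    exact mul_le_of_le_one_left h3 h2
  have t6 : ε / 4 * X * Real.log 2 ≤ ε / 4 * X := by
    have h3 : 0 ≤ ε / 4 * X := by positivity
    exact mul_le_of_le_one_right h3 hl21
  have t7 : M * (X * Real.log 2) *
        (d.Mi a P X / (ι * X) + d.df a (a + X) / (ι * X * Real.log 2) + d.df a (a + k') / ε' +
          (d.fh a P X - d.fh (a - X) P X + C₃) / (ι * X) + J * (π₀ / π₁)) =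
      M * (X * Real.log 2) * (d.Mi a P X / (ι * X)) +
      M * (X * Real.log 2) * (d.df a (a + X) / (ι * X * Real.log 2)) +
      M * (X * Real.log 2) * (d.df a (a + k') / ε') +
      M * (X * Real.log 2) * ((d.fh a P X - d.fh (a - X) P X + C₃) / (ι * X)) +
      M * (X * Real.log 2) * (J * (π₀ / π₁)) := by ring
  rw [t7]
  have t8 : 0 ≤ ε * X := by positivity
  linarith only [t1, t2, t3, t4, t5, t6, t8]

end Pool.OVN
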