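import Pool.Agent.H65.OVN.Box3

/-!
# OVN: the simple forms (total deficit at most `δ₀ X`)
-/

set_option autoImplicit false

namespace Pool.OVN

open Finset Real MvPolynomial
open Pool.Agent.H49.Ent Pool.Agent.H32.Dense Pool.STK Pool.KVA

/-- **OV**, simple form. -/
def OV0Stmt : Prop :=
  ∀ (n K : ℕ) (c ε D : ℝ), 0 < c → 0 < ε → ∃ (κ π₀ δ₀ C : ℝ) (X₀ : ℕ), 0 < κ ∧ κ ≤ 1 ∧ 0 < π₀ ∧
    0 < δ₀ ∧ ∀ (d : SDat n) (a₀ P X : ℕ), X₀ ≤ X → a₀ ≤ P → d.OK K a₀ (P + X) D →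
      d.Full a₀ (P + X) (δ₀ * X) → d.NF c ⌊κ * X⌋₊ P X π₀ →
      CH d.P (hz P ∘ d.ger a₀) (fun ω => (d.W ω, d.pnt P ω)) ≤ ε * ((P : ℝ) - a₀) + C * X

/-- **FLAT**, simple form: the sum over all radii. -/
def FLAT0Stmt : Prop :=
  ∀ (n K : ℕ) (c ε D : ℝ), 0 < c → 0 < ε → ∃ (κ π₀ δ₀ C : ℝ) (X₀ : ℕ), 0 < κ ∧ κ ≤ 1 ∧ 0 < π₀ ∧
    0 < δ₀ ∧ ∀ (d : SDat n) (a₀ P X : ℕ), X₀ ≤ X → a₀ ≤ P → d.OK K a₀ (P + X) D →
      d.Full a₀ (P + X) (δ₀ * X) → d.NF c ⌊κ * X⌋₊ P X π₀ →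
      ∑ a ∈ Ico (a₀ + X) (P + 1), CH d.P (d.shp a (P + X)) (d.ctx a P) ≤
        ε * X * ((P : ℝ) - a₀) + C * X * X

namespace SDat

variable {n : ℕ} (d : SDat n)

/-- The dependence is at most the deficit. -/
theorem Mi_le (hp : IsLaw d.P) {a P X : ℕ} (h : a ≤ P + X) : d.Mi a P X ≤ d.df a (P + X) := by
  have hp0 := hp.nonneg
  unfold Mi
  rw [Pool.M5.MI_eq hp0]
  obtain ⟨r, hr⟩ := Nat.exists_eq_add_of_le h
  have h1 : CH d.P (d.cel (P + X)) (d.ctx a P) ≤ n * ((((P + X : ℕ) : ℝ) - a) * Real.log 2) := by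
    rw [hr]
    push_cast
    have e : ((a : ℝ) + r - a) = r := by ring
    rw [e]
    exact d.CH_cel_le hp _ a r (fun _ _ _ _ h => d.ctx_cel h)
  have h2 : CH d.P (d.cel (P + X)) (fun ω => ((d.L ω, d.W ω), d.cel a ω)) ≤
      CH d.P (d.cel (P + X)) (fun ω => (d.ctx a (P + X) ω, d.ctx a P ω)) := by
    refine CH_mono_cond hp0 ?_
    intro ω ω' _ _ h
    simp only [Prod.mk.injEq] at h
    have h3 : d.ger a ω = d.ger a ω' := by
      unfold ger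
      rw [h.1.1, h.2]
    have h4 : ∀ Q, d.ctx a Q ω = d.ctx a Q ω' := by
      intro Q
      unfold ctx
      rw [h.1.2, h.2, h3]
    exact Prod.ext (h4 _) (h4 _)
  unfold df
  linarith

end SDat

private theorem aux {n : ℕ} (d : SDat n) {a₀ P X : ℕ} {δ : ℝ} (hp : IsLaw d.P) (haP : a₀ ≤ P)
    (hF : d.Full a₀ (P + X) δ) :
    0 ≤ δ ∧ d.Full P (P + X) δ ∧
      ∑ a ∈ Ico (a₀ + X) (P + 1), d.Mi a P X ≤ ((P : ℝ) - a₀ + 1) * δ := by
  have h1 := d.df_nonneg hp (a := a₀) (b := P + X) (by omega)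
  have h2 := hF.le
  have hδ : 0 ≤ δ := h1.trans h2
  refine ⟨hδ, ?_, ?_⟩
  · have h3 := d.df_mono hp (a := a₀) (b := P) (b' := P + X) (c := P + X) haP (by omega) le_rfl
    have h4 : d.df P (P + X) ≤ δ := h3.trans h2
    unfold SDat.df at h4
    unfold SDat.Full
    linarith
  · refine (Finset.sum_le_sum fun a ha => (?_ : d.Mi a P X ≤ δ)).trans ?_
    · rw [Finset.mem_Ico] at ha
      refine (d.Mi_le hp (by omega)).trans (le_trans ?_ h2)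
      exact d.df_mono hp (by omega) (by omega) le_rfl
    · rw [Finset.sum_const, Nat.card_Ico, nsmul_eq_mul]
      refine mul_le_mul_of_nonneg_right ?_ hδ
      have h5 : ((P + 1 - (a₀ + X) : ℕ) : ℝ) ≤ ((P + 1 - a₀ : ℕ) : ℝ) := by
        exact_mod_cast (by omega)
      rw [Nat.cast_sub (by omega : a₀ ≤ P + 1)] at h5
      push_cast at h5
      linarith

/-- The simple form of OV. -/
theorem ov0_of (h : OVStmt) : OV0Stmt := by
  intro n K c ε D hc hε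
  obtain ⟨κ, π₀, δ₀, C, X₀, hκ, hκ1, hπ₀, hδ₀, hC, h⟩ := h n K c (ε / 2) D hc (by linarith)
  set δ₁ : ℝ := min δ₀ (ε / (2 * (C + 1))) with hδ₁
  have hδ1 : 0 < δ₁ := lt_min hδ₀ (by positivity)
  have hCδ : C * δ₁ ≤ ε / 2 := by
    have h1 : δ₁ ≤ ε / (2 * (C + 1)) := min_le_right _ _
    rw [le_div_iff₀ (by positivity)] at h1
    nlinarith
  refine ⟨κ, π₀, δ₁, C * (1 + δ₁) + ε / 2, max X₀ 1, hκ, hκ1, hπ₀, hδ1, ?_⟩
  intro d a₀ P X hX haP hd hF hNF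
  have hX1 : 1 ≤ X := (le_max_right _ _).trans hX
  have hX0 : (0 : ℝ) < X := by exact_mod_cast (show 0 < X by omega)
  obtain ⟨-, f1, f2⟩ := aux d hd.law haP hF
  have f3 : d.Full P (P + X) (δ₀ * X) := by
    unfold SDat.Full at f1 ⊢
    have : δ₁ * X ≤ δ₀ * X := mul_le_mul_of_nonneg_right (min_le_left _ _) hX0.le
    linarith
  have main := h d a₀ P X (δ₁ * X) ((le_max_left _ _).trans hX) haP hd hF f3 hNF
  have h1 : CH d.P (hz P ∘ d.ger a₀) (fun ω => (d.W ω, d.pnt P ω)) ≤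
      CH d.P (d.ctx a₀ P) (fun ω => (d.W ω, d.pnt P ω)) :=
    CH_mono_left hd.law.nonneg fun ω ω' _ _ h => d.ctx_hz (Prod.ext_iff.1 h).1
  refine h1.trans (main.trans ?_)
  have h2 : C / X * ∑ a ∈ Ico (a₀ + X) (P + 1), d.Mi a P X ≤
      C * δ₁ * ((P : ℝ) - a₀ + 1) := by
    refine (mul_le_mul_of_nonneg_left f2 (by positivity)).trans (le_of_eq ?_)
    field_simp
  have h3 : (a₀ : ℝ) ≤ P := by exact_mod_cast haP
  have h4 : C * δ₁ * ((P : ℝ) - a₀ + 1) ≤ ε / 2 * ((P : ℝ) - a₀ + 1) :=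
    mul_le_mul_of_nonneg_right hCδ (by linarith)
  have h5 : (1 : ℝ) ≤ X := by exact_mod_cast hX1
  nlinarith

/-- The simple form of FLAT. -/
theorem flat0_of (h : FLATStmt) : FLAT0Stmt := by
  intro n K c ε D hc hε
  obtain ⟨κ, π₀, δ₀, C, X₀, hκ, hκ1, hπ₀, hδ₀, hC, h⟩ := h n K c (ε / 2) D hc (by linarith)
  set δ₁ : ℝ := min δ₀ (ε / (2 * (C + 1))) with hδ₁
  have hδ1 : 0 < δ₁ := lt_min hδ₀ (by positivity)
  have hCδ : C * δ₁ ≤ ε / 2 := by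
    have h1 : δ₁ ≤ ε / (2 * (C + 1)) := min_le_right _ _
    rw [le_div_iff₀ (by positivity)] at h1
    nlinarith
  refine ⟨κ, π₀, δ₁, C * (1 + δ₁) + ε / 2, max X₀ 1, hκ, hκ1, hπ₀, hδ1, ?_⟩
  intro d a₀ P X hX haP hd hF hNF
  have hX1 : 1 ≤ X := (le_max_right _ _).trans hX
  have hX0 : (0 : ℝ) < X := by exact_mod_cast (show 0 < X by omega)
  obtain ⟨-, f1, f2⟩ := aux d hd.law haP hF
  have f3 : d.Full P (P + X) (δ₀ * X) := by
    unfold SDat.Full at f1 ⊢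
    have : δ₁ * X ≤ δ₀ * X := mul_le_mul_of_nonneg_right (min_le_left _ _) hX0.le
    linarith
  have main := h d a₀ P X (δ₁ * X) ((le_max_left _ _).trans hX) haP hd hF f3 hNF
  refine main.trans ?_
  have h2 : C * ∑ a ∈ Ico (a₀ + X) (P + 1), d.Mi a P X ≤
      C * δ₁ * (((P : ℝ) - a₀ + 1) * X) := by
    refine (mul_le_mul_of_nonneg_left f2 hC).trans (le_of_eq ?_)
    ring
  have h3 : (a₀ : ℝ) ≤ P := by exact_mod_cast haP
  have h4 : C * δ₁ * (((P : ℝ) - a₀ + 1) * X) ≤ ε / 2 * (((P : ℝ) - a₀ + 1) * X) :=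
    mul_le_mul_of_nonneg_right hCδ (mul_nonneg (by linarith) hX0.le)
  have h5 : (1 : ℝ) ≤ X := by exact_mod_cast hX1
  have h6 : ε / 2 * X ≤ ε / 2 * X * X := by
    have : 0 ≤ ε / 2 * X := by positivity
    nlinarith
  nlinarith

end Pool.OVN
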