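import Pool.Agent.H65.OVN.All
import Pool.Agent.H62.OVN.Ovf
import Pool.Agent.H49.FRF.Fam

/-!
# Own-visibility: the theorems for classes
-/

set_option autoImplicit false

namespace Pool.OVN

/-- **OVF.** -/
theorem ovf {m : ℕ} (S : Pool.PB.FCl m) (hS : Pool.PB.SPS S (m - 2)) : Pool.FLF.OVF S :=
  ovf_of_ov ov S hS

/-- **FRF.** -/
theorem frf {k : ℕ} {S : Pool.PB.FCl (k + 1)} (hS : Pool.PB.SPS S (k + 1 - 2)) :
    Pool.SLF.FRF S := Pool.FRF.frf_thm hS box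

end Pool.OVN
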