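import Pool.Agent.H65.OVN.Of
import Pool.Agent.H11.FR.NkThm
import Pool.Agent.H40.FR.GridGrad
import Pool.Agent.H86.OC.ROW
import Pool.Agent.H1.M5.TAY

/-!
# Own-visibility: the theorems
-/

set_option autoImplicit false

namespace Pool.OVN

/-- **NK**: the prediction lemma in several variables. -/
theorem nk : NKStmt :=
  Pool.FR.nk_thm Pool.OC.RS.row_M5 (fun n K σ hσ => by
    obtain ⟨δ, M₀, h0, h⟩ := Pool.Agent.H40.FR.grid_grad n K σ hσ
    refine ⟨δ, M₀, h0, fun M hM a ha => ?_⟩
    have := h M hM a ha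
    convert this) Pool.Agent.H1.M5.tay_thm

/-- **BOX**: one radius. -/
theorem box : BOXStmt := box_of_nk nk

/-- **FLAT.** -/
theorem flat : FLATStmt := flat_of_nk nk

/-- **OV.** -/
theorem ov : OVStmt := ov_of_nk nk

/-- **FR.** -/
theorem fr : FRStmt := fr_of_nk nk

/-- OV, full labels. -/
theorem ov0 : OV0Stmt := ov0_of ov

/-- FLAT, full labels. -/
theorem flat0 : FLAT0Stmt := flat0_of flat

end Pool.OVN
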