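import Pool.Agent.H65.OVN.MV
import Pool.Agent.H1.OVN.Rec
import Pool.Agent.H48.OC.Step
import Pool.Agent.H4.KJ.J1A
import Pool.Agent.H31.M5.H2
import Pool.Agent.H64.OC.FinC

/-!
# OVN, BOX 1: the data of N1 in one context
-/

set_option autoImplicit false

namespace Pool.OVN

open Finset Real MvPolynomial
open Pool.Agent.H49.Ent Pool.Agent.H32.Dense Pool.STK

/-! ### Floors -/

theorem floor_pre (x : ℝ) (i k : ℕ) :
    ⌊(2 : ℝ) ^ i * x⌋ = ⌊(2 : ℝ) ^ (i + k) * x⌋ / 2 ^ k := by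
  have h : (2 : ℝ) ^ i * x = ((2 : ℝ) ^ (i + k) * x) / ((2 ^ k : ℕ) : ℝ) := by
    rw [pow_add]
    push_cast
    field_simp
  rw [h, Int.floor_div_natCast]
  push_cast
  rfl

theorem floor_int_div (t : ℤ) (k : ℕ) : ⌊(t : ℝ) / 2 ^ k⌋ = t / 2 ^ k := by
  have h : (t : ℝ) / 2 ^ k = (t : ℝ) / ((2 ^ k : ℕ) : ℝ) := by
    push_cast
    rfl
  rw [h, Int.floor_div_natCast, Int.floor_intCast]
  push_cast
  rfl

/-- The digits of the fractional part. -/
theorem floor_fract (t : ℤ) {m r : ℕ} (hr : r ≤ m) :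
    ⌊(2 : ℝ) ^ r * Int.fract ((t : ℝ) / 2 ^ m)⌋ = t / 2 ^ (m - r) - 2 ^ r * (t / 2 ^ m) := by
  have h1 : (2 : ℝ) ^ r * Int.fract ((t : ℝ) / 2 ^ m) =
      (t : ℝ) / 2 ^ (m - r) - ((2 ^ r * (t / 2 ^ m) : ℤ) : ℝ) := by
    rw [Int.fract, floor_int_div]
    push_cast
    have : (2 : ℝ) ^ m = 2 ^ r * 2 ^ (m - r) := by
      rw [← pow_add, Nat.add_sub_cancel' hr]
    rw [mul_sub, this]
    congr 1
    field_simp
  rw [h1, Int.floor_sub_intCast, floor_int_div]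

variable {n : ℕ}

theorem hz_pre (P X : ℕ) (G : MvPolynomial (Fin n) ℝ) (s : Fin n →₀ ℕ) :
    hz P G s = hz (P + X) G s / 2 ^ X := floor_pre _ _ _

namespace SDat

variable (d : SDat n)

theorem cel_pre (a k : ℕ) (ω : d.Om) (j : Fin n) : d.cel a ω j = d.cel (a + k) ω j / 2 ^ k :=
  floor_pre _ _ _

theorem cel_det {a b : ℕ} (h : a ≤ b) {ω ω' : d.Om} (h1 : d.cel b ω = d.cel b ω') :
    d.cel a ω = d.cel a ω' := by
  obtain ⟨k, rfl⟩ := Nat.exists_eq_add_of_le h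
  funext j
  rw [d.cel_pre a k, d.cel_pre a k, h1]

theorem ht_pre (r k : ℕ) (ω : d.Om) : d.ht r ω = d.ht (r + k) ω / 2 ^ k := floor_pre _ _ _

/-- The position of the base point in its cell. -/
noncomputable def thf (a Q : ℕ) (t : Fin n → ℤ) : Fin n → ℝ :=
  fun j => Int.fract ((t j : ℝ) / 2 ^ (Q - a))

theorem fl_thf {a Q r : ℕ} (h : a + r ≤ Q) (ω : d.Om) (j : Fin n) :
    fl r (thf a Q (d.cel Q ω)) j = d.cel (a + r) ω j - 2 ^ r * d.cel a ω j := by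
  have h1 : fl r (thf a Q (d.cel Q ω)) j =
      ⌊(2 : ℝ) ^ r * Int.fract ((d.cel Q ω j : ℝ) / 2 ^ (Q - a))⌋ := rfl
  rw [h1, floor_fract _ (by omega : r ≤ Q - a)]
  have e1 := d.cel_pre (a + r) (Q - a - r) ω j
  have e2 := d.cel_pre a (Q - a) ω j
  rw [show a + r + (Q - a - r) = Q by omega] at e1
  rw [show a + (Q - a) = Q by omega] at e2
  rw [e1, e2]

/-- The digits of the sheet on the cell. -/
noncomputable def ld (a Q : ℕ) (ω : d.Om) : (Fin n →₀ ℕ) → ℤ := hz Q (d.ger a ω)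

/-- The exponent. -/
noncomputable def ex {K : ℕ} (s : Pool.M5.Mon n K) : Fin n →₀ ℕ := Finsupp.equivFunOnFinite.symm s

/-- The unknown numbers. -/
noncomputable def vf (K X : ℕ) (l : (Fin n →₀ ℕ) → ℤ) : Pool.M5.Mon n K → ℤ := fun s => l (ex s) % 2 ^ X

/-- The position in the box as a function. -/
noncomputable def nf (K a P X : ℕ) (l : (Fin n →₀ ℕ) → ℤ) (t : Fin n → ℤ) : ℤ :=
  ⌊∑ s : Pool.M5.Mon n K, (vf K X l s : ℝ) * Pool.M5.mono (s : Fin n → ℕ) (thf a (P + X) t)⌋ +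
    l 0 % 2 ^ X

theorem nh_eq (K a P X : ℕ) (ω : d.Om) :
    d.nh K a P X ω = nf K a P X (d.ld a (P + X) ω) (d.cel (P + X) ω) := rfl

/-- The data of N1 in one context. -/
noncomputable def kd (K a P X : ℕ) (b : d.Wt × (Fin n → ℤ) × ((Fin n →₀ ℕ) → ℤ)) : KDat n K where
  Om := d.Om
  Lam := (Fin n →₀ ℕ) → ℤ
  Tau := Fin n → ℤ
  P := cond d.P (d.ctx a P) b
  L := d.ld a (P + X)
  T := d.cel (P + X)
  v := vf K X
  N := d.nh K a P X
  th := thf a (P + X)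
  X := X

theorem vf_bd (K X : ℕ) (l : (Fin n →₀ ℕ) → ℤ) (s : Pool.M5.Mon n K) :
    0 ≤ vf K X l s ∧ vf K X l s < 2 ^ X :=
  ⟨Int.emod_nonneg _ (by positivity), Int.emod_lt_of_pos _ (by positivity)⟩

theorem nh_congr (K a P X : ℕ) {ω ω' : d.Om} (h1 : d.ld a (P + X) ω = d.ld a (P + X) ω')
    (h2 : d.cel (P + X) ω = d.cel (P + X) ω') : d.nh K a P X ω = d.nh K a P X ω' := by
  rw [nh_eq, nh_eq, h1, h2]

theorem nf_diff (K a P X : ℕ) (l : (Fin n →₀ ℕ) → ℤ) (t t' : Fin n → ℤ) :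
    |((nf K a P X l t' : ℝ) - nf K a P X l t) - 2 ^ X *
      ∑ s, ((vf K X l s : ℝ) / 2 ^ X) * (Pool.M5.mono (s : Fin n → ℕ) (thf a (P + X) t') -
          Pool.M5.mono (s : Fin n → ℕ) (thf a (P + X) t))| ≤ 2 ^ 1 := by
  unfold nf
  rw [Finset.mul_sum]
  have h2 : ∀ s : Pool.M5.Mon n K, (2 : ℝ) ^ X * ((vf K X l s : ℝ) / 2 ^ X *
      (Pool.M5.mono (s : Fin n → ℕ) (thf a (P + X) t') -
        Pool.M5.mono (s : Fin n → ℕ) (thf a (P + X) t))) =
      (vf K X l s : ℝ) * Pool.M5.mono (s : Fin n → ℕ) (thf a (P + X) t') -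
      (vf K X l s : ℝ) * Pool.M5.mono (s : Fin n → ℕ) (thf a (P + X) t) := by
    intro s
    field_simp
  rw [Finset.sum_congr rfl fun s _ => h2 s, Finset.sum_sub_distrib]
  set A := ∑ s : Pool.M5.Mon n K, (vf K X l s : ℝ) *
        Pool.M5.mono (s : Fin n → ℕ) (thf a (P + X) t')
  set B := ∑ s : Pool.M5.Mon n K, (vf K X l s : ℝ) *
        Pool.M5.mono (s : Fin n → ℕ) (thf a (P + X) t)
  push_cast
  have a1 := Int.floor_le A
  have a2 := Int.lt_floor_add_one A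
  have b1 := Int.floor_le B
  have b2 := Int.lt_floor_add_one B
  rw [abs_le]
  constructor <;> linarith

theorem vf_le (K X : ℕ) (l : (Fin n →₀ ℕ) → ℤ) (s : Pool.M5.Mon n K) :
    |(vf K X l s : ℝ) / 2 ^ X| ≤ 1 := by
  obtain ⟨h0, h1⟩ := vf_bd K X l s
  have h0' : (0 : ℝ) ≤ (vf K X l s : ℝ) := by exact_mod_cast h0
  have h1' : (vf K X l s : ℝ) ≤ 2 ^ X := by exact_mod_cast h1.le
  rw [abs_of_nonneg (by positivity), div_le_one (by positivity)]
  exact h1'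

theorem kd_ok (K a P X : ℕ) (b : d.Wt × (Fin n → ℤ) × ((Fin n →₀ ℕ) → ℤ)) (hp : IsLaw d.P)
    (hb : law d.P (d.ctx a P) b ≠ 0) : (d.kd K a P X b).OK 1 where
  law := ⟨fun ω => cond_nonneg hp.nonneg _ _ ω, sum_cond _ _ hb⟩
  hv := fun l s => vf_le K X l s
  hN := fun _ _ _ _ h => d.nh_congr K a P X (Prod.ext_iff.1 h).1 (Prod.ext_iff.1 h).2
  hth := fun _ _ => ⟨Int.fract_nonneg _, Int.fract_lt_one _⟩
  hZ := by
    intro ω ω' _ _ h
    have h2 : ∀ ω ω' : d.Om, d.ld a (P + X) ω = d.ld a (P + X) ω' →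
        |((d.nh K a P X ω' : ℝ) - d.nh K a P X ω) - 2 ^ X *
      ∑ s, ((vf K X (d.ld a (P + X) ω) s : ℝ) / 2 ^ X) *
        (Pool.M5.mono (s : Fin n → ℕ) (thf a (P + X) (d.cel (P + X) ω')) -
          Pool.M5.mono (s : Fin n → ℕ) (thf a (P + X) (d.cel (P + X) ω)))| ≤ 2 ^ 1 := by
      intro ω ω' h
      rw [nh_eq, nh_eq, ← h]
      exact nf_diff K a P X _ _ _
    exact h2 ω ω' h

/-- The shape is a function of the unknown numbers and of the context. -/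
theorem shp_det (K a P X : ℕ) (hK : ∀ l, (d.G l).totalDegree ≤ K) {ω ω' : d.Om}
    (h1 : d.ctx a P ω = d.ctx a P ω')
    (h2 : vf K X (d.ld a (P + X) ω) = vf K X (d.ld a (P + X) ω')) :
    d.shp a (P + X) ω = d.shp a (P + X) ω' := by
  classical
  have hc : hz P (d.ger a ω) = hz P (d.ger a ω') := by
    simp only [ctx, Prod.mk.injEq] at h1
    exact h1.2.2
  have hz0 : ∀ ω (s : Fin n →₀ ℕ), K < ∑ j, s j → hz (P + X) (d.ger a ω) s = 0 := by
    intro ω s hs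
    unfold hz ger pul
    rw [Pool.Agent.H1.OVN.rec_thm, Finset.sum_eq_zero, mul_zero, Int.floor_zero]
    intro t ht
    have h3 : (t.sum fun _ k => k) ≤ K :=
      (MvPolynomial.le_totalDegree ht).trans (hK (d.L ω))
    have h4 : ∃ j, t j < s j := by
      by_contra hcon
      push Not at hcon
      have h5 : ∑ j, s j ≤ ∑ j, t j := Finset.sum_le_sum fun j _ => hcon j
      rw [Finsupp.sum_fintype _ _ (fun _ => rfl)] at h3
      omega
    obtain ⟨j, hj⟩ := h4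
    rw [Finset.prod_eq_zero (Finset.mem_univ j), mul_zero]
    rw [Nat.choose_eq_zero_of_lt hj]
    simp
  funext s
  unfold shp
  by_cases hs0 : s = 0
  · rw [if_pos hs0, if_pos hs0]
  rw [if_neg hs0, if_neg hs0]
  by_cases hsK : K < ∑ j, s j
  · rw [hz0 ω s hsK, hz0 ω' s hsK]
  push Not at hsK
  have hmem : (fun j => s j) ∈ Pool.M5.Mon n K := by
    unfold Pool.M5.Mon
    rw [Finset.mem_filter, Fintype.mem_piFinset]
    refine ⟨fun j => ?_, ?_, hsK⟩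
    · rw [Finset.mem_range]
      have := Finset.single_le_sum (f := fun j => s j) (fun _ _ => Nat.zero_le _)
        (Finset.mem_univ j)
      have h6 : s j ≤ ∑ j, s j := this
      omega
    · by_contra hcon
      apply hs0
      ext j
      have := Finset.single_le_sum (f := fun j => s j) (fun _ _ => Nat.zero_le _)
        (Finset.mem_univ j)
      have h6 : s j ≤ ∑ j, s j := this
      have h7 : ¬ 1 ≤ ∑ j, s j := hcon
      simp only [Finsupp.coe_zero, Pi.zero_apply]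
      omega
  have h3 := congrFun h2 ⟨_, hmem⟩
  have e1 : ex (⟨_, hmem⟩ : Pool.M5.Mon n K) = s := by
    ext j
    rfl
  unfold vf ld at h3
  rw [e1] at h3
  have h4 := hz_pre P X (d.ger a ω) s
  have h5 := hz_pre P X (d.ger a ω') s
  rw [hc] at h4
  rw [← Int.emod_add_mul_ediv (hz (P + X) (d.ger a ω) s) (2 ^ X),
    ← Int.emod_add_mul_ediv (hz (P + X) (d.ger a ω') s) (2 ^ X), ← h4, ← h5, h3]

end SDat

end Pool.OVN
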