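import Pool.Agent.H65.OVN.Box1

/-!
# OVN, BOX 2: the hypotheses (H1), (H2) in the mean over the contexts
-/

set_option autoImplicit false

namespace Pool.OVN

open Finset Real MvPolynomial
open Pool.Agent.H49.Ent Pool.Agent.H32.Dense Pool.STK Pool.KVA

section general

variable {Ω S T U V W : Type} [Fintype Ω]

/-- The mean of the mutual information over the contexts. -/
theorem Ex_MI {p : Ω → ℝ} (hp : ∀ ω, 0 ≤ p ω) (b : Ω → U) (A : Ω → S) (B : Ω → T) (C : Ω → V) :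
    Ex p (fun ω => MI (cond p b (b ω)) A B C) = MI p A B (fun ω => (C ω, b ω)) := by
  unfold MI
  rw [Pool.OCG.CH_pair_eq_Ex hp A C b, Pool.OCG.CH_pair_eq_Ex hp B C b,
    Pool.OCG.CH_pair_eq_Ex hp (fun ω => (A ω, B ω)) C b, Ex_sub, Ex_add]

theorem MI_congr {S' T' U' : Type} {p : Ω → ℝ} (hp : ∀ ω, 0 ≤ p ω) {A : Ω → S} {A' : Ω → S'}
    {B : Ω → T} {B' : Ω → T'} {C : Ω → U} {C' : Ω → U'} (h1 : Det p (fun ω => (A ω, C ω)) A')
    (h2 : Det p (fun ω => (A' ω, C' ω)) A) (h3 : Det p (fun ω => (B ω, C ω)) B')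
    (h4 : Det p (fun ω => (B' ω, C' ω)) B) (h5 : Det p C C') (h6 : Det p C' C) :
    MI p A B C = MI p A' B' C' := by
  unfold MI
  rw [CH_congr hp h1 h2 h5 h6, CH_congr hp h3 h4 h5 h6]
  congr 1
  refine CH_congr hp ?_ ?_ h5 h6
  · intro ω ω' a b h
    simp only [Prod.mk.injEq] at h
    exact Prod.ext (h1 ω ω' a b (Prod.ext h.1.1 h.2)) (h3 ω ω' a b (Prod.ext h.1.2 h.2))
  · intro ω ω' a b h
    simp only [Prod.mk.injEq] at h
    exact Prod.ext (h2 ω ω' a b (Prod.ext h.1.1 h.2)) (h4 ω ω' a b (Prod.ext h.1.2 h.2))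

/-- Near variables. -/
theorem CH_near {p : Ω → ℝ} (hp : IsLaw p) (A B : Ω → ℤ) (Z : Ω → T) (Φ : T → ℤ) (C : ℝ)
    (hC : 0 ≤ C) (h : ∀ ω, 0 < p ω → |((A ω - B ω - Φ (Z ω) : ℤ) : ℝ)| ≤ C) :
    CH p A (fun ω => (B ω, Z ω)) ≤ Real.log (4 * C + 1) := by
  refine (CH_le_int hp.nonneg hp.sum_one A _ (fun _ => 2 * C) ?_).trans (le_of_eq ?_)
  · intro ω ω' a b hw
    obtain ⟨h1, h2⟩ := Prod.ext_iff.1 hw
    simp only at h1 h2
    have e1 := h ω a
    have e2 := h ω' b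
    rw [← h1, ← h2] at e2
    have e3 : ((A ω - A ω' : ℤ) : ℝ) = ((A ω - B ω - Φ (Z ω) : ℤ) : ℝ) -
        ((A ω' - B ω - Φ (Z ω) : ℤ) : ℝ) := by
      push_cast
      ring
    rw [e3]
    refine (abs_sub _ _).trans ?_
    linarith
  · rw [Ex_const hp.sum_one]
    congr 1
    ring

theorem CH_near' {p : Ω → ℝ} (hp : IsLaw p) (A B : Ω → ℤ) (Z : Ω → T) (Φ : T → ℤ) (C : ℝ)
    (hC : 0 ≤ C) (h : ∀ ω, 0 < p ω → |((A ω - B ω - Φ (Z ω) : ℤ) : ℝ)| ≤ C) :
    CH p B (fun ω => (A ω, Z ω)) ≤ Real.log (4 * C + 1) := by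
  refine CH_near hp B A Z (fun z => -Φ z) C hC fun ω a => ?_
  have e1 := h ω a
  rw [← abs_neg] at e1
  refine le_trans (le_of_eq ?_) e1
  congr 1
  push_cast
  ring

/-- Entropy of near variables. -/
theorem CH_le_near {p : Ω → ℝ} (hp : IsLaw p) (A B : Ω → ℤ) (Z : Ω → T) (Φ : T → ℤ) (C : ℝ)
    (hC : 0 ≤ C) (h : ∀ ω, 0 < p ω → |((A ω - B ω - Φ (Z ω) : ℤ) : ℝ)| ≤ C) :
    CH p A Z ≤ CH p B Z + Real.log (4 * C + 1) := by
  have h1 := CH_le_add hp.nonneg A B Z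
  have h2 := CH_near hp A B Z Φ C hC h
  linarith

theorem CH_ge_near {p : Ω → ℝ} (hp : IsLaw p) (A B : Ω → ℤ) (Z : Ω → T) (Φ : T → ℤ) (C : ℝ)
    (hC : 0 ≤ C) (h : ∀ ω, 0 < p ω → |((A ω - B ω - Φ (Z ω) : ℤ) : ℝ)| ≤ C) :
    CH p B Z ≤ CH p A Z + Real.log (4 * C + 1) := by
  have h1 := CH_le_add hp.nonneg B A Z
  have h2 := CH_near' hp A B Z Φ C hC h
  linarith

/-- Entropy of digits. -/
theorem H_box {m : ℕ} {p : Ω → ℝ} (hp : IsLaw p) {I : Type} [Fintype I] (A : Ω → I → ℤ)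
    (h : ∀ ω, 0 < p ω → ∀ i, 0 ≤ A ω i ∧ A ω i < 2 ^ m) :
    H p A ≤ Fintype.card I * (m * Real.log 2) := by
  classical
  refine (H_le_log_card hp.nonneg hp.sum_one A
    (Fintype.piFinset fun _ : I => Finset.Ico (0 : ℤ) (2 ^ m)) fun ω hω => ?_).trans
    (le_of_eq ?_)
  · rw [Fintype.mem_piFinset]
    intro i
    rw [Finset.mem_Ico]
    exact h ω hω i
  · rw [Fintype.card_piFinset]
    simp only [Int.card_Ico, Finset.prod_const, Finset.card_univ]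
    have : ((2 : ℤ) ^ m - 0).toNat = 2 ^ m := by
      rw [sub_zero]
      have : (2 : ℤ) ^ m = ((2 ^ m : ℕ) : ℤ) := by push_cast; rfl
      rw [this, Int.toNat_natCast]
    rw [this]
    push_cast
    rw [Real.log_pow, Real.log_pow]

theorem CH_box {m : ℕ} {p : Ω → ℝ} (hp : IsLaw p) {I : Type} [Fintype I] (A : Ω → I → ℤ)
    (Z : Ω → T) (h : ∀ ω, 0 < p ω → ∀ i, 0 ≤ A ω i ∧ A ω i < 2 ^ m) :
    CH p A Z ≤ Fintype.card I * (m * Real.log 2) := by
  classical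
  refine (CH_le_card hp.nonneg hp.sum_one A Z
    (fun _ => Fintype.piFinset fun _ : I => Finset.Ico (0 : ℤ) (2 ^ m)) fun ω hω => ?_).trans
    (le_of_eq ?_)
  · rw [Fintype.mem_piFinset]
    intro i
    rw [Finset.mem_Ico]
    exact h ω hω i
  · rw [Ex_const hp.sum_one, Fintype.card_piFinset]
    simp only [Int.card_Ico, Finset.prod_const, Finset.card_univ]
    have : ((2 : ℤ) ^ m - 0).toNat = 2 ^ m := by
      rw [sub_zero]
      have : (2 : ℤ) ^ m = ((2 ^ m : ℕ) : ℤ) := by push_cast; rfl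
      rw [this, Int.toNat_natCast]
    rw [this]
    push_cast
    rw [Real.log_pow, Real.log_pow]

end general

variable {n : ℕ}

namespace SDat

variable (d : SDat n)

/-- The context with the next digits of the sheet. -/
theorem det_ctx_ld (a P X : ℕ) {ω ω' : d.Om} (h1 : d.ld a (P + X) ω = d.ld a (P + X) ω')
    (h2 : d.W ω = d.W ω') (h3 : d.cel a ω = d.cel a ω') : d.ctx a P ω = d.ctx a P ω' := by
  unfold ctx
  rw [h2, h3]
  congr 2
  funext s
  rw [hz_pre P X, hz_pre P X]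
  have := congrFun h1 s
  unfold ld at this
  rw [this]

theorem ctx_W {a P : ℕ} {ω ω' : d.Om} (h : d.ctx a P ω = d.ctx a P ω') : d.W ω = d.W ω' :=
  (Prod.ext_iff.1 h).1

theorem ctx_cel {a P : ℕ} {ω ω' : d.Om} (h : d.ctx a P ω = d.ctx a P ω') :
    d.cel a ω = d.cel a ω' := (Prod.ext_iff.1 (Prod.ext_iff.1 h).2).1

theorem ctx_hz {a P : ℕ} {ω ω' : d.Om} (h : d.ctx a P ω = d.ctx a P ω') :
    hz P (d.ger a ω) = hz P (d.ger a ω') := (Prod.ext_iff.1 (Prod.ext_iff.1 h).2).2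

/-- (H1), first part, in the mean. -/
theorem Ex_h1 (hp : IsLaw d.P) (a P X : ℕ) :
    Ex d.P (fun ω => MI (cond d.P (d.ctx a P) (d.ctx a P ω)) (d.cel (P + X)) (d.ld a (P + X))
      (fun _ => ())) = d.Mi a P X := by
  rw [Ex_MI hp.nonneg (d.ctx a P)]
  unfold Mi
  refine MI_congr hp.nonneg (fun _ _ _ _ h => (Prod.ext_iff.1 h).1)
    (fun _ _ _ _ h => (Prod.ext_iff.1 h).1) ?_ ?_ (fun _ _ _ _ h => (Prod.ext_iff.1 h).2)
    (fun _ _ _ _ h => Prod.ext rfl h)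
  · intro ω ω' _ _ h
    simp only [Prod.mk.injEq, true_and] at h
    have h2 := d.ctx_W h.2
    have h3 := d.ctx_cel h.2
    have h4 : hz (P + X) (d.ger a ω) = hz (P + X) (d.ger a ω') := h.1
    unfold ctx
    rw [h2, h3, h4]
  · intro ω ω' _ _ h
    simp only [Prod.mk.injEq] at h
    exact d.ctx_hz h.1

theorem thf_digits {a Q r : ℕ} (ω : d.Om) (i : Fin n) :
    0 ≤ fl r (thf a Q (d.cel Q ω)) i ∧ fl r (thf a Q (d.cel Q ω)) i < 2 ^ r := by
  have h1 : fl r (thf a Q (d.cel Q ω)) i =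
      ⌊(2 : ℝ) ^ r * Int.fract ((d.cel Q ω i : ℝ) / 2 ^ (Q - a))⌋ := rfl
  rw [h1]
  have h2 := Int.fract_nonneg ((d.cel Q ω i : ℝ) / 2 ^ (Q - a))
  have h3 := Int.fract_lt_one ((d.cel Q ω i : ℝ) / 2 ^ (Q - a))
  refine ⟨Int.floor_nonneg.2 (by positivity), ?_⟩
  rw [Int.floor_lt]
  push_cast
  have : (0 : ℝ) < 2 ^ r := by positivity
  nlinarith

/-- (H1), the digits: the deficit in the mean. -/
theorem Ex_df {K a₀ : ℕ} {D : ℝ} (a P X r : ℕ) (hd : d.OK K a₀ (P + X) D) (hr : a + r ≤ P + X) :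
    Ex d.P (fun ω => n * (r * Real.log 2) - CH (cond d.P (d.ctx a P) (d.ctx a P ω))
      (fun ω => fl r (thf a (P + X) (d.cel (P + X) ω))) (d.ld a (P + X))) ≤ d.df a (a + r) := by
  have hp := hd.law
  rw [Ex_sub, Ex_const hp.sum_one, ← Pool.OCG.CH_pair_eq_Ex hp.nonneg]
  unfold df
  push_cast
  have e1 : ((a : ℝ) + r - a) = r := by ring
  rw [e1]
  refine sub_le_sub_left ?_ _
  have h1 : CH d.P (d.cel (a + r)) (fun ω => ((d.L ω, d.W ω), d.cel a ω)) =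
      CH d.P (fun ω => fl r (thf a (P + X) (d.cel (P + X) ω)))
        (fun ω => ((d.L ω, d.W ω), d.cel a ω)) := by
    refine CH_congr hp.nonneg ?_ ?_ (fun _ _ _ _ h => h) (fun _ _ _ _ h => h)
    · intro ω ω' _ _ h
      simp only [Prod.mk.injEq] at h
      funext j
      have e2 := d.fl_thf hr ω j
      have e3 := d.fl_thf hr ω' j
      rw [h.1, h.2.2, ← e3] at e2
      exact e2
    · intro ω ω' _ _ h
      simp only [Prod.mk.injEq] at h
      funext j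
      have e2 := d.fl_thf hr ω j
      have e3 := d.fl_thf hr ω' j
      rw [h.1, e3, h.2.2] at e2
      linarith
  rw [h1]
  refine CH_mono_cond hp.nonneg ?_
  intro ω ω' _ _ h
  simp only [Prod.mk.injEq] at h
  have h2 : d.ld a (P + X) ω = d.ld a (P + X) ω' := by
    unfold ld ger
    rw [h.1.1, h.2]
  exact Prod.ext h2 (d.det_ctx_ld a P X h2 h.1.2 h.2)

theorem df_term_nonneg (a P X r : ℕ) {q : d.Om → ℝ} (hq : IsLaw q) :
    0 ≤ n * (r * Real.log 2) - CH q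
      (fun ω => fl r (thf a (P + X) (d.cel (P + X) ω))) (d.ld a (P + X)) := by
  have h1 := CH_box (m := r) hq (fun ω => fl r (thf a (P + X) (d.cel (P + X) ω)))
    (d.ld a (P + X)) (fun ω _ i => d.thf_digits ω i)
  rw [Fintype.card_fin] at h1
  linarith

/-- (H2) in the mean. -/
theorem Ex_h2 {K a₀ : ℕ} {D : ℝ} {C₁ : ℕ} {C₂ : ℝ} (a P X : ℕ) (hd : d.OK K a₀ (P + X) D)
    (haP : a ≤ P) (hXa : X ≤ a)
    (Φ : (d.Wt × (Fin n → ℤ) × ((Fin n →₀ ℕ) → ℤ)) × (Fin n → ℤ) → ℤ)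
    (hΦ : ∀ ω, 0 < d.P ω →
      |d.ht (P + X) ω - d.nh K a P X ω - Φ (d.ctx a P ω, d.cel (P + X) ω)| ≤ C₁)
    (hR : CH d.P (fun ω => (d.ctx a P ω, d.shp a (P + X) ω))
      (fun ω => (d.ctx (a - X) P ω, d.cel a ω)) ≤ C₂) :
    Ex d.P (fun ω => MI (cond d.P (d.ctx a P) (d.ctx a P ω)) (d.nh K a P X)
      (fun ω => vf K X (d.ld a (P + X) ω)) (d.cel (P + X))) ≤
      (d.fh a P X - d.fh (a - X) P X) + (2 * Real.log (4 * C₁ + 1) + C₂) := by
  have hp := hd.law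
  have hp0 := hp.nonneg
  rw [Ex_MI hp0, Pool.M5.MI_eq hp0]
  have hC : (0 : ℝ) ≤ C₁ := Nat.cast_nonneg _
  have hΦ' : ∀ ω, 0 < d.P ω → |((d.ht (P + X) ω - d.nh K a P X ω -
      Φ (d.ctx a P ω, d.cel (P + X) ω) : ℤ) : ℝ)| ≤ C₁ := by
    intro ω hω
    have := hΦ ω hω
    exact_mod_cast this
  -- the first term
  have h1 : CH d.P (d.nh K a P X) (fun ω => (d.cel (P + X) ω, d.ctx a P ω)) ≤
      d.fh a P X + Real.log (4 * C₁ + 1) := by
    have e1 : CH d.P (d.nh K a P X) (fun ω => (d.cel (P + X) ω, d.ctx a P ω)) =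
        CH d.P (d.nh K a P X) (fun ω => (d.ctx a P ω, d.cel (P + X) ω)) := by
      refine CH_congr hp0 (fun _ _ _ _ h => (Prod.ext_iff.1 h).1)
        (fun _ _ _ _ h => (Prod.ext_iff.1 h).1) ?_ ?_
      · intro ω ω' _ _ h
        exact Prod.ext (Prod.ext_iff.1 h).2 (Prod.ext_iff.1 h).1
      · intro ω ω' _ _ h
        exact Prod.ext (Prod.ext_iff.1 h).2 (Prod.ext_iff.1 h).1
    rw [e1]
    exact CH_ge_near hp (d.ht (P + X)) (d.nh K a P X)
      (fun ω => (d.ctx a P ω, d.cel (P + X) ω)) Φ C₁ hC hΦ'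
  -- the second term
  set Z : d.Om → _ := fun ω => ((d.ctx (a - X) P ω, d.cel (P + X) ω),
    (d.ctx a P ω, d.shp a (P + X) ω)) with hZ
  have h2 : CH d.P (d.nh K a P X) Z ≤ CH d.P (d.nh K a P X)
      (fun ω => (vf K X (d.ld a (P + X) ω), (d.cel (P + X) ω, d.ctx a P ω))) := by
    refine CH_mono_cond hp0 ?_
    intro ω ω' _ _ h
    simp only [hZ, Prod.mk.injEq] at h
    obtain ⟨⟨g1, g2⟩, g3, g4⟩ := h
    have g5 : vf K X (d.ld a (P + X) ω) = vf K X (d.ld a (P + X) ω') := by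
      funext s
      have hs : ex s ≠ 0 := by
        intro h0
        have h1 := s.2
        unfold Pool.M5.Mon at h1
        rw [Finset.mem_filter] at h1
        have h2 : ∀ j, (s : Fin n → ℕ) j = 0 := fun j => by
          have := DFunLike.congr_fun h0 j
          simpa [ex] using this
        have h3 := h1.2.1
        simp [h2] at h3
      have g6 := congrFun g4 (ex s)
      unfold shp at g6
      rw [if_neg hs, if_neg hs] at g6
      unfold vf ld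
      rw [g6]
    exact Prod.ext g5 (Prod.ext g2 g3)
  have h3 : CH d.P (d.ht (P + X)) Z ≤ CH d.P (d.nh K a P X) Z + Real.log (4 * C₁ + 1) :=
    CH_le_near hp (d.ht (P + X)) (d.nh K a P X) Z (fun z => Φ (z.2.1, z.1.2)) C₁ hC
      fun ω hω => hΦ' ω hω
  have h4 : d.fh (a - X) P X ≤ CH d.P (d.ht (P + X)) Z + C₂ := by
    unfold fh
    have e1 := Pool.M5.CH_cond_le hp0 (d.ht (P + X)) (fun ω => (d.ctx a P ω, d.shp a (P + X) ω))
      (fun ω => (d.ctx (a - X) P ω, d.cel (P + X) ω))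
    have e2 : CH d.P (d.ht (P + X)) (fun ω => ((d.ctx a P ω, d.shp a (P + X) ω),
        (d.ctx (a - X) P ω, d.cel (P + X) ω))) = CH d.P (d.ht (P + X)) Z := by
      refine CH_congr hp0 (fun _ _ _ _ h => (Prod.ext_iff.1 h).1)
        (fun _ _ _ _ h => (Prod.ext_iff.1 h).1) ?_ ?_
      · intro ω ω' _ _ h
        exact Prod.ext (Prod.ext_iff.1 h).2 (Prod.ext_iff.1 h).1
      · intro ω ω' _ _ h
        exact Prod.ext (Prod.ext_iff.1 h).2 (Prod.ext_iff.1 h).1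
    have e3 : CH d.P (fun ω => (d.ctx a P ω, d.shp a (P + X) ω))
        (fun ω => (d.ctx (a - X) P ω, d.cel (P + X) ω)) ≤
        CH d.P (fun ω => (d.ctx a P ω, d.shp a (P + X) ω))
          (fun ω => (d.ctx (a - X) P ω, d.cel a ω)) := by
      refine CH_mono_cond hp0 ?_
      intro ω ω' _ _ h
      simp only [Prod.mk.injEq] at h
      exact Prod.ext h.1 (d.cel_det (by omega) h.2)
    linarith
  linarith

end SDat

end Pool.OVN
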