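import Pool.Agent.H65.OVN.Box2
import Pool.Agent.H6.OC.NF

/-!
# OVN, BOX 3: the hypothesis (H5), events
-/

set_option autoImplicit false

namespace Pool.OVN

open Finset Real MvPolynomial
open Pool.Agent.H49.Ent Pool.Agent.H32.Dense Pool.STK Pool.KVA Pool.KAF

section general

variable {Ω S T U V W : Type} [Fintype Ω]

theorem cond_congr {p : Ω → ℝ} {Z : Ω → S} {Z' : Ω → T} {z : S} {z' : T}
    (h : ∀ ω, 0 ≠ p ω → (Z ω = z ↔ Z' ω = z')) : cond p Z z = cond p Z' z' := by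
  classical
  have hl : law p Z z = law p Z' z' := by
    unfold law
    refine Finset.sum_congr rfl fun ω _ => ?_
    by_cases h0 : 0 = p ω
    · rw [← h0, ite_self, ite_self]
    · by_cases h1 : Z ω = z
      · rw [if_pos h1, if_pos ((h ω h0).1 h1)]
      · rw [if_neg h1, if_neg fun h2 => h1 ((h ω h0).2 h2)]
  funext ω
  unfold Pool.Agent.H49.Ent.cond
  rw [hl]
  by_cases h0 : 0 = p ω
  · rw [← h0, zero_div, ite_self, ite_self]
  · by_cases h1 : Z ω = z
    · rw [if_pos h1, if_pos ((h ω h0).1 h1)]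
    · rw [if_neg h1, if_neg fun h2 => h1 ((h ω h0).2 h2)]

/-- Blocks of near variables. -/
theorem CH_blk {p : Ω → ℝ} (hp : IsLaw p) (A A' B B' : Ω → ℤ) (Z : Ω → T) (Φ Φ' : T → ℤ) (C : ℝ)
    (hC : 0 ≤ C) (h : ∀ ω, 0 < p ω → |((A ω - B ω - Φ (Z ω) : ℤ) : ℝ)| ≤ C)
    (h' : ∀ ω, 0 < p ω → |((A' ω - B' ω - Φ' (Z ω) : ℤ) : ℝ)| ≤ C) :
    CH p B' (fun ω => (B ω, Z ω)) ≤ CH p A' (fun ω => (A ω, Z ω)) + 2 * Real.log (4 * C + 1) := by
  have hp0 := hp.nonneg
  have h1 := Pool.M5.CH_cond_le hp0 B' A (fun ω => (B ω, Z ω))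
  have h2 := CH_near hp A B Z Φ C hC h
  have h3 : CH p B' (fun ω => (A ω, (B ω, Z ω))) ≤ CH p B' (fun ω => (A ω, Z ω)) := by
    refine CH_mono_cond hp0 ?_
    intro ω ω' _ _ hh
    simp only [Prod.mk.injEq] at hh
    exact Prod.ext hh.1 hh.2.2
  have h4 := CH_ge_near hp A' B' (fun ω => (A ω, Z ω)) (fun z => Φ' z.2) C hC
    (fun ω hω => h' ω hω)
  linarith

theorem div_near (x y z m C : ℤ) (hm : 0 < m) (h : |x - y - z| ≤ C) :
    |x / m - y / m - z / m| ≤ C + 2 := by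
  have hC : 0 ≤ C := (abs_nonneg _).trans h
  have x1 := Int.emod_add_mul_ediv x m
  have y1 := Int.emod_add_mul_ediv y m
  have z1 := Int.emod_add_mul_ediv z m
  have x2 := Int.emod_nonneg x hm.ne'
  have y2 := Int.emod_nonneg y hm.ne'
  have z2 := Int.emod_nonneg z hm.ne'
  have x3 := Int.emod_lt_of_pos x hm
  have y3 := Int.emod_lt_of_pos y hm
  have z3 := Int.emod_lt_of_pos z hm
  have h2 : m * (x / m - y / m - z / m) = (x - y - z) - (x % m - y % m - z % m) := by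
    linear_combination x1 - y1 - z1
  rw [abs_le] at h ⊢
  generalize x / m - y / m - z / m = w at *
  constructor
  · by_contra hc
    have h3 : w ≤ -(C + 2) - 1 := by omega
    have h4 : m * w ≤ m * (-(C + 2) - 1) := mul_le_mul_of_nonneg_left h3 hm.le
    nlinarith
  · by_contra hc
    have h3 : C + 2 + 1 ≤ w := by omega
    have h4 : m * (C + 2 + 1) ≤ m * w := mul_le_mul_of_nonneg_left h3 hm.le
    nlinarith

/-- The entropy given an event. -/
theorem CH_event_ge {p : Ω → ℝ} (hp : IsLaw p) (E : Set Ω) (X : Ω → S) (Y : Ω → T) (M : ℝ)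
    (hE : 0 < Pr p E) (hM0 : 0 ≤ M) (hM : ∀ q : Ω → ℝ, IsLaw q → (∀ ω, 0 < q ω → 0 < p ω) →
      CH q X Y ≤ M) :
    M - (M - CH p X Y + Real.log 2) / Pr p E ≤ CH (cond p (fun ω => ω ∈ E) True) X Y := by
  classical
  have hp0 := hp.nonneg
  have h1 := Pool.KJ.CH_two hp0 X Y (fun ω => ω ∈ E)
  have h2 := Pool.M5.CH_cond_le hp0 X (fun ω => decide (ω ∈ E)) Y
  have h3 : CH p (fun ω => decide (ω ∈ E)) Y ≤ Real.log 2 := by
    refine le_trans (le_of_eq ?_) (Pool.OC.CH_event_le hp E Y)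
    refine CH_congr hp0 ?_ ?_ (fun _ _ _ _ h => h) (fun _ _ _ _ h => h)
    · intro ω ω' _ _ h
      have := (Prod.ext_iff.1 h).1
      simpa using this
    · intro ω ω' _ _ h
      have := (Prod.ext_iff.1 h).1
      simpa using this
  have h4 : CH p X (fun ω => (decide (ω ∈ E), Y ω)) = CH p X (fun ω => (Y ω, decide (ω ∈ E))) := by
    refine CH_congr hp0 (fun _ _ _ _ h => (Prod.ext_iff.1 h).1)
      (fun _ _ _ _ h => (Prod.ext_iff.1 h).1) ?_ ?_
    · intro ω ω' _ _ h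
      exact Prod.ext (Prod.ext_iff.1 h).2 (Prod.ext_iff.1 h).1
    · intro ω ω' _ _ h
      exact Prod.ext (Prod.ext_iff.1 h).2 (Prod.ext_iff.1 h).1
  have h5 : law p (fun ω => ω ∈ E) False * CH (cond p (fun ω => ω ∈ E) False) X Y ≤
      law p (fun ω => ω ∈ E) False * M := by
    rcases (law_nonneg hp0 (fun ω => ω ∈ E) False).eq_or_lt with h0 | h0
    · rw [← h0, zero_mul, zero_mul]
    · refine mul_le_mul_of_nonneg_left (hM _ ⟨fun ω => cond_nonneg hp0 _ _ ω,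
        sum_cond p _ h0.ne'⟩ fun ω hω => ((cond_pos_iff hp0 _ _ ω).1 hω).1) h0.le
  have h6 : law p (fun ω => ω ∈ E) True + law p (fun ω => ω ∈ E) False = 1 := by
    rw [← hp.sum_one]
    unfold law
    rw [← Finset.sum_add_distrib]
    refine Finset.sum_congr rfl fun ω _ => ?_
    by_cases h : ω ∈ E <;> simp [h]
  have h7 : Pr p E = law p (fun ω => ω ∈ E) True := rfl
  rw [h7] at hE ⊢
  rw [sub_le_iff_le_add, ← sub_le_iff_le_add', le_div_iff₀ hE]
  nlinarith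

end general

variable {n : ℕ}

namespace SDat

variable (d : SDat n)

/-- The digits of a cell given a larger cell. -/
theorem CH_cel_le {q : d.Om → ℝ} (hq : IsLaw q) {T : Type} (Z : d.Om → T) (a r : ℕ)
    (hZ : Det q Z (d.cel a)) : CH q (d.cel (a + r)) Z ≤ n * (r * Real.log 2) := by
  have h1 : CH q (d.cel (a + r)) Z = CH q (fun ω j => d.cel (a + r) ω j - 2 ^ r * d.cel a ω j) Z := by
    refine CH_congr hq.nonneg ?_ ?_ (fun _ _ _ _ h => h) (fun _ _ _ _ h => h)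
    · intro ω ω' a b h
      have h2 := hZ ω ω' a b (Prod.ext_iff.1 h).2
      have h3 := (Prod.ext_iff.1 h).1
      simp only at h3
      simp only [h2, h3]
    · intro ω ω' a b h
      have h2 := hZ ω ω' a b (Prod.ext_iff.1 h).2
      have h3 := (Prod.ext_iff.1 h).1
      simp only at h3
      funext j
      have h4 := congrFun h3 j
      simp only [h2] at h4
      linarith
  rw [h1]
  have h2 := CH_box (m := r) hq (fun ω j => d.cel (a + r) ω j - 2 ^ r * d.cel a ω j) Z ?_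
  · rwa [Fintype.card_fin] at h2
  · intro ω _ j
    have h3 := d.cel_pre a r ω j
    have h4 := Int.emod_add_mul_ediv (d.cel (a + r) ω j) (2 ^ r)
    have h5 := Int.emod_nonneg (d.cel (a + r) ω j) (by positivity : (2 ^ r : ℤ) ≠ 0)
    have h6 := Int.emod_lt_of_pos (d.cel (a + r) ω j) (by positivity : (0 : ℤ) < 2 ^ r)
    rw [← h3] at h4
    constructor <;> linarith

theorem df_nonneg (hp : IsLaw d.P) {a b : ℕ} (h : a ≤ b) : 0 ≤ d.df a b := by
  obtain ⟨r, rfl⟩ := Nat.exists_eq_add_of_le h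
  have h1 := d.CH_cel_le hp (fun ω => ((d.L ω, d.W ω), d.cel a ω)) a r
    (fun _ _ _ _ h => (Prod.ext_iff.1 h).2)
  unfold df
  push_cast
  have e : ((a : ℝ) + r - a) = r := by ring
  rw [e]
  linarith

theorem df_add (hp : IsLaw d.P) {a b c : ℕ} (h : a ≤ b) (h' : b ≤ c) :
    d.df a c = d.df a b + d.df b c := by
  have hp0 := hp.nonneg
  have h1 := CH_chain hp0 (d.cel c) (d.cel b) (fun ω => ((d.L ω, d.W ω), d.cel a ω))
  have h2 : CH d.P (fun ω => (d.cel c ω, d.cel b ω)) (fun ω => ((d.L ω, d.W ω), d.cel a ω)) =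
      CH d.P (d.cel c) (fun ω => ((d.L ω, d.W ω), d.cel a ω)) := by
    refine CH_congr hp0 ?_ ?_ (fun _ _ _ _ h => h) (fun _ _ _ _ h => h)
    · intro ω ω' _ _ h
      exact (Prod.ext_iff.1 (Prod.ext_iff.1 h).1).1
    · intro ω ω' _ _ h
      have h3 := (Prod.ext_iff.1 h).1
      exact Prod.ext h3 (d.cel_det h' h3)
  have h3 : CH d.P (d.cel c) (fun ω => (d.cel b ω, ((d.L ω, d.W ω), d.cel a ω))) =
      CH d.P (d.cel c) (fun ω => ((d.L ω, d.W ω), d.cel b ω)) := by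
    refine CH_congr hp0 (fun _ _ _ _ h => (Prod.ext_iff.1 h).1)
      (fun _ _ _ _ h => (Prod.ext_iff.1 h).1) ?_ ?_
    · intro ω ω' _ _ h
      simp only [Prod.mk.injEq] at h
      exact Prod.ext (Prod.ext h.2.1.1 h.2.1.2) h.1
    · intro ω ω' _ _ h
      simp only [Prod.mk.injEq] at h
      exact Prod.ext h.2 (Prod.ext (Prod.ext h.1.1 h.1.2) (d.cel_det (by omega) h.2))
  rw [h2, h3] at h1
  unfold df
  rw [h1]
  ring

theorem df_mono (hp : IsLaw d.P) {a b b' c : ℕ} (h : a ≤ b) (h' : b ≤ b') (h'' : b' ≤ c) :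
    d.df b b' ≤ d.df a c := by
  rw [d.df_add hp h (h'.trans h''), d.df_add hp h' h'']
  have h1 := d.df_nonneg hp h
  have h2 := d.df_nonneg hp h''
  linarith

theorem Full.le {a b : ℕ} {δ : ℝ} (h : d.Full a b δ) : d.df a b ≤ δ := by
  unfold Full at h
  unfold df
  linarith

/-- The height given the sheet and a cell. -/
theorem CH_ht {K a₀ Q : ℕ} {D : ℝ} (hd : d.OK K a₀ Q D) (hD : 0 ≤ D) {r : ℕ} (hr : a₀ ≤ r)
    (hrQ : r ≤ Q) {q : d.Om → ℝ} (hq : IsLaw q) (hqp : ∀ ω, 0 < q ω → 0 < d.P ω) :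
    CH q (d.ht r) (fun ω => ((d.L ω, d.W ω), d.cel r ω)) ≤ Real.log (2 * (3 + n * D) + 1) := by
  refine (CH_le_int hq.nonneg hq.sum_one _ _ (fun _ => 3 + n * D) ?_).trans
    (le_of_eq (Ex_const hq.sum_one _))
  intro ω ω' a b h
  simp only [Prod.mk.injEq] at h
  obtain ⟨⟨h1, h2⟩, h3⟩ := h
  have hω := hqp ω a
  have hω' := hqp ω' b
  have e1 := hd.hx ω hω
  have e2 := hd.hx ω' hω'
  have e3 := hd.lip d hω hr (d.y ω) (d.y ω') (fun j => by
    rw [sub_self, abs_zero]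
    positivity) (fun j => by
    rw [abs_sub_comm]
    exact d.abs_sub_le_of_cel h3 j)
  have e4 : ∑ j, |d.y ω' j - d.y ω j| ≤ n * (1 / 2 ^ r) := by
    refine (Finset.sum_le_sum fun j _ => ?_).trans (le_of_eq (?_ : ∑ _j : Fin n, (1 : ℝ) / 2 ^ r = _))
    · rw [abs_sub_comm]
      exact d.abs_sub_le_of_cel h3 j
    · rw [Finset.sum_const, Finset.card_univ, Fintype.card_fin, nsmul_eq_mul]
  have e5 := e3.trans (mul_le_mul_of_nonneg_left e4 hD)
  rw [← h1] at e2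
  have e6 : (1 : ℝ) / 2 ^ Q ≤ 1 / 2 ^ r :=
    one_div_le_one_div_of_le (by positivity) (pow_le_pow_right₀ (by norm_num) hrQ)
  have e7 : |d.x ω - d.x ω'| ≤ (2 + n * D) * (1 / 2 ^ r) := by
    have f1 := abs_sub_abs_le_abs_sub (0 : ℝ) 0
    have : d.x ω - d.x ω' = (d.x ω - eval (d.y ω) (d.G (d.L ω))) -
      (d.x ω' - eval (d.y ω') (d.G (d.L ω))) -
      (eval (d.y ω') (d.G (d.L ω)) - eval (d.y ω) (d.G (d.L ω))) := by ring
    rw [this]
    refine (abs_sub _ _).trans ?_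
    have f2 := abs_sub (d.x ω - eval (d.y ω) (d.G (d.L ω)))
      (d.x ω' - eval (d.y ω') (d.G (d.L ω)))
    nlinarith
  have e8 : |(2 : ℝ) ^ r * d.x ω - 2 ^ r * d.x ω'| ≤ 2 + n * D := by
    rw [← mul_sub, abs_mul, abs_of_pos (by positivity : (0 : ℝ) < 2 ^ r)]
    refine (mul_le_mul_of_nonneg_left e7 (by positivity)).trans (le_of_eq ?_)
    field_simp
  unfold ht
  push_cast
  have a1 := Int.floor_le ((2 : ℝ) ^ r * d.x ω)
  have a2 := Int.lt_floor_add_one ((2 : ℝ) ^ r * d.x ω)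
  have b1 := Int.floor_le ((2 : ℝ) ^ r * d.x ω')
  have b2 := Int.lt_floor_add_one ((2 : ℝ) ^ r * d.x ω')
  rw [abs_le] at e8 ⊢
  constructor <;> linarith [e8.1, e8.2]

end SDat

end Pool.OVN
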