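import Pool.Agent.H65.OVN.Box3

/-!
# OVN, BOX 4: the hypothesis (H5), the union of the bad events
-/

set_option autoImplicit false

namespace Pool.OVN

open Finset Real MvPolynomial
open Pool.Agent.H49.Ent Pool.Agent.H32.Dense Pool.STK Pool.KVA Pool.KAF

section general

variable {Ω S T U V W : Type} [Fintype Ω]

theorem isLaw_cond' {p : Ω → ℝ} (hp : IsLaw p) (b : Ω → T) {ω : Ω} (hω : 0 < p ω) :
    IsLaw (cond p b (b ω)) :=
  ⟨fun v => cond_nonneg hp.nonneg _ _ v, sum_cond p _ (law_pos hp.nonneg b hω).ne'⟩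

/-- The conditional laws of a union of events on the fibres. -/
theorem cond_union {p : Ω → ℝ} (hp : IsLaw p) (b : Ω → T) (F : Set Ω) (Eb : Set Ω) {ω : Ω}
    (hω : 0 < p ω) (hF : ω ∈ F) (h : ∀ u, b u = b ω → (u ∈ F ↔ u ∈ Eb)) :
    cond (cond p (fun u => u ∈ F) True) b (b ω) = cond (cond p b (b ω)) (fun u => u ∈ Eb) True := by
  have hE : ω ∈ Eb := (h ω rfl).1 hF
  have h1 : 0 < cond p (fun u => u ∈ F) True ω :=
    (cond_pos_iff hp.nonneg _ _ ω).2 ⟨hω, by simpa using hF⟩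
  have h2 : 0 < cond p b (b ω) ω := (cond_pos_iff hp.nonneg _ _ ω).2 ⟨hω, rfl⟩
  have h3 := Pool.OC.cond_swap hp.nonneg (fun u => u ∈ F) b h1
  have h4 := Pool.OC.cond_swap hp.nonneg b (fun u => u ∈ Eb) h2
  have e1 : (ω ∈ Eb) = True := by simpa using hE
  have e2 : (ω ∈ F) = True := by simpa using hF
  rw [e1] at h4
  rw [h3, h4]
  refine cond_congr fun u _ => ?_
  simp only [Prod.mk.injEq, e2]
  constructor
  · rintro ⟨g1, g2⟩
    exact ⟨by simpa using (h u g1).1 (by simpa using g2), g1⟩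
  · rintro ⟨g1, g2⟩
    exact ⟨g2, by simpa using (h u g2).2 (by simpa using g1)⟩

end general

variable {n : ℕ}

namespace SDat

variable (d : SDat n)

/-- The rows of the position in the box. -/
noncomputable def rw' (K a P X r : ℕ) (ω : d.Om) : ℤ := d.nh K a P X ω / 2 ^ (X - r)

/-- A context with a full block on a large event. -/
def Bad (K a P X h j : ℕ) (c₁ π₁ : ℝ) (b : d.Wt × (Fin n → ℤ) × ((Fin n →₀ ℕ) → ℤ)) : Prop :=
  ∃ E : Set d.Om, π₁ ≤ Pr (cond d.P (d.ctx a P) b) E ∧ (1 - c₁) * h * Real.log 2 <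
    CH (cond (cond d.P (d.ctx a P) b) (fun ω => ω ∈ E) True) (d.rw' K a P X ((j + 1) * h))
      (fun ω => (d.rw' K a P X (j * h) ω, d.cel (P + X) ω))

theorem bad_le {K a₀ a P X h j C₁ : ℕ} {D δ c c₁ π₀ π₁ : ℝ} (hd : d.OK K a₀ (P + X) D)
    (hD : 0 ≤ D) (ha : a₀ ≤ a) (haP : a ≤ P)
    (Φ : (d.Wt × (Fin n → ℤ) × ((Fin n →₀ ℕ) → ℤ)) × (Fin n → ℤ) → ℤ)
    (hΦ : ∀ ω, 0 < d.P ω →
      |d.ht (P + X) ω - d.nh K a P X ω - Φ (d.ctx a P ω, d.cel (P + X) ω)| ≤ C₁)
    (hF : d.df P (P + X) ≤ δ) (hNF : d.NF c h P X π₀) (hj : (j + 1) * h ≤ X) (hπ₀ : 0 < π₀)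
    (hπ₁ : 0 < π₁)
    (hnum : (δ + Real.log 2) / π₀ + Real.log (2 * (3 + n * D) + 1) +
      2 * Real.log (4 * (C₁ + 2) + 1) < (c - c₁) * (h * Real.log 2)) :
    π₁ * Pr d.P {ω | d.Bad K a P X h j c₁ π₁ (d.ctx a P ω)} ≤ π₀ := by
  classical
  by_contra hcon
  push Not at hcon
  have hp := hd.law
  have hp0 := hp.nonneg
  have hl2 : 0 < Real.log 2 := Real.log_pos (by norm_num)
  -- the union of the events
  set Eb : (d.Wt × (Fin n → ℤ) × ((Fin n →₀ ℕ) → ℤ)) → Set d.Om := fun b =>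
    if hb : d.Bad K a P X h j c₁ π₁ b then hb.choose else ∅ with hEb
  have hEb1 : ∀ b, d.Bad K a P X h j c₁ π₁ b → π₁ ≤ Pr (cond d.P (d.ctx a P) b) (Eb b) ∧
      (1 - c₁) * h * Real.log 2 <
      CH (cond (cond d.P (d.ctx a P) b) (fun ω => ω ∈ Eb b) True) (d.rw' K a P X ((j + 1) * h))
        (fun ω => (d.rw' K a P X (j * h) ω, d.cel (P + X) ω)) := by
    intro b hb
    simp only [hEb]
    rw [dif_pos hb]
    exact hb.choose_spec
  set F : Set d.Om := {ω | d.Bad K a P X h j c₁ π₁ (d.ctx a P ω) ∧ ω ∈ Eb (d.ctx a P ω)} with hFd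
  have hPF : π₀ ≤ Pr d.P F := by
    refine hcon.le.trans ?_
    rw [← Pool.KX.AVG.Pr_cond_sum hp0 (d.ctx a P) F, Pool.KAF.Pr_eq, Finset.mul_sum]
    refine Finset.sum_le_sum fun ω _ => ?_
    by_cases hω : ω ∈ {ω | d.Bad K a P X h j c₁ π₁ (d.ctx a P ω)}
    · rw [if_pos hω]
      rcases (hp0 ω).eq_or_lt with h0 | h0
      · rw [← h0, mul_zero, zero_mul]
      rw [mul_comm]
      refine mul_le_mul_of_nonneg_left ((hEb1 _ hω).1.trans ?_) h0.le
      refine Pr_mono (fun v => cond_nonneg hp0 _ _ v) fun v hv hvE => ?_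
      have h2 := ((cond_pos_iff hp0 _ _ v).1 hv).2
      refine ⟨?_, ?_⟩
      · rw [h2]
        exact hω
      · rw [h2]
        exact hvE
    · rw [if_neg hω, mul_zero]
      exact mul_nonneg (hp0 ω) (law_nonneg (fun v => cond_nonneg hp0 _ _ v) _ _)
  have hF0 : 0 < Pr d.P F := hπ₀.trans_le hPF
  set q := cond d.P (fun ω => ω ∈ F) True with hq
  have hql : IsLaw q := ⟨fun v => cond_nonneg hp0 _ _ v, sum_cond _ _ hF0.ne'⟩
  have hq0 := hql.nonneg
  have hqp : ∀ ω, 0 < q ω → 0 < d.P ω ∧ ω ∈ F := fun ω hω => by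
    have := (cond_pos_iff hp0 _ _ ω).1 hω
    exact ⟨this.1, by simpa using this.2⟩
  -- lower bound for the rows
  have h1 : (1 - c₁) * h * Real.log 2 ≤ CH q (d.rw' K a P X ((j + 1) * h))
      (fun ω => ((d.rw' K a P X (j * h) ω, d.cel (P + X) ω), d.ctx a P ω)) := by
    rw [Pool.OCG.CH_pair_eq_Ex hq0]
    rw [← Ex_const hql.sum_one ((1 - c₁) * h * Real.log 2)]
    refine Ex_mono hq0 fun ω hω => ?_
    obtain ⟨g1, g2⟩ := hqp ω hω
    have g3 := cond_union hp (d.ctx a P) F (Eb (d.ctx a P ω)) g1 g2 (fun u hu => by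
      constructor
      · rintro ⟨k1, k2⟩
        rwa [hu] at k2
      · intro k1
        refine ⟨?_, ?_⟩
        · rw [hu]
          exact g2.1
        · rwa [hu])
    rw [hq, g3]
    exact (hEb1 _ g2.1).2.le
  -- transfer to the heights
  have hr : ∀ r : ℕ, r ≤ X → ∀ ω, 0 < q ω → |((d.ht (P + r) ω - d.rw' K a P X r ω -
      Φ (d.ctx a P ω, d.cel (P + X) ω) / 2 ^ (X - r) : ℤ) : ℝ)| ≤ (C₁ : ℝ) + 2 := by
    intro r hr ω hω
    have e1 := d.ht_pre (P + r) (X - r) ω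
    rw [show P + r + (X - r) = P + X by omega] at e1
    have e2 := div_near _ _ _ (2 ^ (X - r)) C₁ (by positivity) (hΦ ω (hqp ω hω).1)
    rw [← e1] at e2
    unfold rw'
    exact_mod_cast e2
  have hj0 : j * h ≤ X := le_trans (Nat.mul_le_mul_right _ (Nat.le_succ j)) hj
  have h2 : CH q (d.rw' K a P X ((j + 1) * h))
      (fun ω => (d.rw' K a P X (j * h) ω, (d.cel (P + X) ω, d.ctx a P ω))) ≤
      CH q (d.ht (P + (j + 1) * h)) (fun ω => (d.ht (P + j * h) ω,
        (d.cel (P + X) ω, d.ctx a P ω))) + 2 * Real.log (4 * (C₁ + 2) + 1) :=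
    CH_blk hql (d.ht (P + j * h)) (d.ht (P + (j + 1) * h)) (d.rw' K a P X (j * h))
      (d.rw' K a P X ((j + 1) * h)) (fun ω => (d.cel (P + X) ω, d.ctx a P ω))
      (fun z => Φ (z.2, z.1) / 2 ^ (X - j * h)) (fun z => Φ (z.2, z.1) / 2 ^ (X - (j + 1) * h))
      (C₁ + 2) (by positivity) (fun ω hω => hr _ hj0 ω hω) (fun ω hω => hr _ hj ω hω)
  have h3 : CH q (d.rw' K a P X ((j + 1) * h))
      (fun ω => ((d.rw' K a P X (j * h) ω, d.cel (P + X) ω), d.ctx a P ω)) =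
      CH q (d.rw' K a P X ((j + 1) * h))
      (fun ω => (d.rw' K a P X (j * h) ω, (d.cel (P + X) ω, d.ctx a P ω))) := by
    refine CH_congr hq0 (fun _ _ _ _ h => (Prod.ext_iff.1 h).1)
      (fun _ _ _ _ h => (Prod.ext_iff.1 h).1) ?_ ?_ <;>
    · intro ω ω' _ _ h
      simp only [Prod.mk.injEq] at h ⊢
      tauto
  -- the points
  have hN := hNF j hj F hPF
  have h4 := CH_chain hq0 (d.ht (P + (j + 1) * h)) (d.cel (P + (j + 1) * h))
    (fun ω => (d.pnt (P + j * h) ω, d.W ω))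
  have h5 : CH q (fun ω => (d.ht (P + (j + 1) * h) ω, d.cel (P + (j + 1) * h) ω))
      (fun ω => (d.pnt (P + j * h) ω, d.W ω)) = CH q (d.pnt (P + (j + 1) * h))
      (fun ω => (d.pnt (P + j * h) ω, d.W ω)) := by
    refine CH_congr hq0 ?_ ?_ (fun _ _ _ _ h => h) (fun _ _ _ _ h => h)
    · intro ω ω' _ _ h
      simp only [Prod.mk.injEq] at h
      exact Prod.ext h.1.2 h.1.1
    · intro ω ω' _ _ h
      have h1 := (Prod.ext_iff.1 h).1
      exact Prod.ext (Prod.ext_iff.1 h1).2 (Prod.ext_iff.1 h1).1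
  have h6 : CH q (d.ht (P + (j + 1) * h)) (fun ω => (d.ht (P + j * h) ω,
      (d.cel (P + X) ω, d.ctx a P ω))) ≤ CH q (d.ht (P + (j + 1) * h))
      (fun ω => (d.cel (P + (j + 1) * h) ω, (d.pnt (P + j * h) ω, d.W ω))) := by
    refine CH_mono_cond hq0 ?_
    intro ω ω' _ _ h
    simp only [Prod.mk.injEq] at h
    obtain ⟨k1, k2, k3⟩ := h
    exact Prod.ext (d.cel_det (by omega) k2)
      (Prod.ext (Prod.ext (d.cel_det (by omega) k2) k1) (d.ctx_W k3))
  have h7 : CH q (d.cel (P + (j + 1) * h)) (fun ω => ((d.L ω, d.W ω), d.cel (P + j * h) ω)) ≤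
      CH q (d.cel (P + (j + 1) * h)) (fun ω => (d.pnt (P + j * h) ω, d.W ω)) +
        Real.log (2 * (3 + n * D) + 1) := by
    have k1 := Pool.M5.CH_cond_le hq0 (d.cel (P + (j + 1) * h)) (d.ht (P + j * h))
      (fun ω => ((d.L ω, d.W ω), d.cel (P + j * h) ω))
    have k2 := d.CH_ht hd hD (by omega : a₀ ≤ P + j * h) (by omega) hql
      (fun ω hω => (hqp ω hω).1)
    have k3 : CH q (d.cel (P + (j + 1) * h)) (fun ω => (d.ht (P + j * h) ω,
        ((d.L ω, d.W ω), d.cel (P + j * h) ω))) ≤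
        CH q (d.cel (P + (j + 1) * h)) (fun ω => (d.pnt (P + j * h) ω, d.W ω)) := by
      refine CH_mono_cond hq0 ?_
      intro ω ω' _ _ h
      simp only [Prod.mk.injEq] at h
      exact Prod.ext (Prod.ext h.2.2 h.1) h.2.1.2
    linarith
  -- fullness on the event
  have h8 : n * (h * Real.log 2) - (δ + Real.log 2) / π₀ ≤
      CH q (d.cel (P + (j + 1) * h)) (fun ω => ((d.L ω, d.W ω), d.cel (P + j * h) ω)) := by
    have e1 : P + (j + 1) * h = P + j * h + h := by ring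
    have k1 := CH_event_ge hp F (d.cel (P + (j + 1) * h))
      (fun ω => ((d.L ω, d.W ω), d.cel (P + j * h) ω)) (n * (h * Real.log 2)) hF0 (by positivity)
      (fun q hq _ => by
        rw [e1]
        exact d.CH_cel_le hq _ (P + j * h) h (fun _ _ _ _ h => (Prod.ext_iff.1 h).2))
    refine le_trans (sub_le_sub_left ?_ _) k1
    have k2 : n * (h * Real.log 2) - CH d.P (d.cel (P + (j + 1) * h))
        (fun ω => ((d.L ω, d.W ω), d.cel (P + j * h) ω)) = d.df (P + j * h) (P + (j + 1) * h) := by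
      unfold df
      congr 3
      rw [e1]
      push_cast
      ring
    rw [k2]
    have k3 := d.df_mono hp (a := P) (b := P + j * h) (b' := P + (j + 1) * h) (c := P + X)
      (by omega) (by rw [e1]; omega) (by omega)
    have k4 := d.df_nonneg hp (a := P + j * h) (b := P + (j + 1) * h) (by rw [e1]; omega)
    have k5 : (d.df (P + j * h) (P + (j + 1) * h) + Real.log 2) / Pr d.P F ≤
        (δ + Real.log 2) / Pr d.P F := by
      gcongr
      linarith
    refine k5.trans ?_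
    have k6 : 0 ≤ δ + Real.log 2 := by linarith
    gcongr
  rw [h3] at h1
  rw [← h5, h4] at hN
  nlinarith

end SDat

end Pool.OVN
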