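import Pool.Agent.H65.OVN.MV
import Pool.Agent.H1.OVN.Cell
import Pool.Agent.H44.OVN.Hgt
import Pool.Agent.H7.SLP.H5L

/-!
# OVN, rows PCO and STA
-/

set_option autoImplicit false

namespace Pool.OVN

open Finset Real MvPolynomial
open Pool.Agent.H49.Ent Pool.Agent.H32.Dense Pool.STK

/-- **PCO.** -/
theorem pco_thm : PCOStmt := by
  intro n K
  obtain ⟨C, hC, h⟩ := Pool.SLP.coef_cube n K
  refine ⟨C, hC, fun A M hA hM s => ?_⟩
  have h1 := h A M (fun _ => 0) hA (fun _ => by norm_num) (fun y hy => hM y fun j => by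
    have := hy j
    constructor
    · exact this.1
    · linarith [this.2])
  refine le_trans ?_ h1
  by_cases hs : s ∈ A.support
  · exact Finset.single_le_sum (f := fun s => |coeff s A|) (fun _ _ => abs_nonneg _) hs
  · rw [notMem_support_iff.1 hs, abs_zero]
    exact Finset.sum_nonneg fun _ _ => abs_nonneg _

/-- **STA.** -/
theorem sta_of (hP : PCOStmt) : STAStmt := by
  classical
  intro n K D
  obtain ⟨C, hC, h⟩ := hP n K
  set M : ℝ := max D 0 * n + 2 with hM
  have hM0 : 0 ≤ M := by positivity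
  refine ⟨Fintype.card (Fin n → Fin (K + 1)) * Real.log (2 * (2 * (C * M) + 1) + 1), ?_, ?_⟩
  · have : 0 ≤ C * M := by positivity
    have : 0 ≤ Real.log (2 * (2 * (C * M) + 1) + 1) := Real.log_nonneg (by linarith)
    positivity
  intro d a₀ P Q hd haP hPQ
  have hp := hd.law
  -- the coefficients are known
  have key : ∀ ω, 0 < d.P ω → ∀ s : Fin n →₀ ℕ,
      |(2 : ℝ) ^ P * coeff s (d.ger P ω) - (if s = 0 then (d.ht P ω : ℝ) else 0)| ≤ C * M := by
    intro ω hω s
    have h1 := h (MvPolynomial.C ((2 : ℝ) ^ P) * d.ger P ω - MvPolynomial.C (d.ht P ω : ℝ)) M ?_ ?_ s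
    · rw [coeff_sub, coeff_C_mul, coeff_C] at h1
      have e : (if (0 : Fin n →₀ ℕ) = s then (d.ht P ω : ℝ) else 0) =
          if s = 0 then (d.ht P ω : ℝ) else 0 := by
        by_cases hs : s = 0
        · subst hs
          simp
        · rw [if_neg hs, if_neg fun h => hs h.symm]
      rwa [e] at h1
    · refine (totalDegree_sub_C_le _ _).trans ?_
      refine (totalDegree_mul _ _).trans ?_
      rw [totalDegree_C, zero_add]
      exact (Pool.OVN.Hgt.totalDegree_pul _ _ _).trans (hd.deg _)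
    · intro z hz
      rw [eval_sub, eval_mul, eval_C, eval_C]
      unfold SDat.ger
      rw [Pool.OVN.Hgt.eval_pul]
      set b : Fin n → ℝ := fun j => (d.cel P ω j : ℝ) / 2 ^ P + 1 / 2 ^ P * z j with hb
      have hbj : ∀ j, |b j - d.y ω j| ≤ 1 / 2 ^ P := by
        intro j
        have h2 : (0 : ℝ) < 2 ^ P := by positivity
        have e1 : (d.cel P ω j : ℝ) ≤ 2 ^ P * d.y ω j := Int.floor_le _
        have e2 : (2 : ℝ) ^ P * d.y ω j < d.cel P ω j + 1 := Int.lt_floor_add_one _
        obtain ⟨z0, z1⟩ := hz j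
        have e3 : b j - d.y ω j = (d.cel P ω j + z j - 2 ^ P * d.y ω j) * (1 / 2 ^ P) := by
          rw [hb]
          field_simp
        rw [e3, abs_mul, abs_of_pos (by positivity : (0 : ℝ) < 1 / 2 ^ P)]
        refine mul_le_of_le_one_left (by positivity) ?_
        rw [abs_le]
        constructor <;> linarith
      have hlip := hd.lip d hω haP (d.y ω) b (fun j => by
        rw [sub_self, abs_zero]
        positivity) hbj
      have hsum : ∑ j, |b j - d.y ω j| ≤ n * (1 / 2 ^ P) := by
        refine (Finset.sum_le_sum fun j _ => hbj j).trans (le_of_eq ?_)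
        rw [Finset.sum_const, Finset.card_univ, Fintype.card_fin, nsmul_eq_mul]
      have hsum0 : 0 ≤ ∑ j, |b j - d.y ω j| := Finset.sum_nonneg fun _ _ => abs_nonneg _
      have h3 : |eval b (d.G (d.L ω)) - eval (d.y ω) (d.G (d.L ω))| ≤
          max D 0 * (n * (1 / 2 ^ P)) :=
        hlip.trans ((mul_le_mul_of_nonneg_right (le_max_left _ _) hsum0).trans
          (mul_le_mul_of_nonneg_left hsum (le_max_right _ _)))
      have h4 := hd.hx ω hω
      have h5 : (1 : ℝ) / 2 ^ Q ≤ 1 / 2 ^ P :=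
        one_div_le_one_div_of_le (by positivity) (pow_le_pow_right₀ (by norm_num) hPQ)
      have h6 : |eval b (d.G (d.L ω)) - d.x ω| ≤ (max D 0 * n + 1) * (1 / 2 ^ P) := by
        have : eval b (d.G (d.L ω)) - d.x ω = (eval b (d.G (d.L ω)) - eval (d.y ω) (d.G (d.L ω))) -
          (d.x ω - eval (d.y ω) (d.G (d.L ω))) := by ring
        rw [this]
        refine (abs_sub _ _).trans ?_
        linarith
      have h7 : |(2 : ℝ) ^ P * eval b (d.G (d.L ω)) - 2 ^ P * d.x ω| ≤ max D 0 * n + 1 := by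
        rw [← mul_sub, abs_mul, abs_of_pos (by positivity : (0 : ℝ) < 2 ^ P)]
        refine (mul_le_mul_of_nonneg_left h6 (by positivity)).trans (le_of_eq ?_)
        field_simp
      have f1 : (d.ht P ω : ℝ) ≤ 2 ^ P * d.x ω := Int.floor_le _
      have f2 : (2 : ℝ) ^ P * d.x ω < d.ht P ω + 1 := Int.lt_floor_add_one _
      rw [abs_le] at h7 ⊢
      constructor <;> linarith [h7.1, h7.2]
  -- the rounded coefficients in the box
  set V : d.Om → (Fin n → Fin (K + 1)) → ℤ := fun ω i =>
    hz P (d.ger P ω) (Finsupp.equivFunOnFinite.symm fun j => (i j : ℕ)) with hV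
  have h2 := Pool.Agent.H1.OVN.near hp.nonneg hp.sum_one V (fun ω => (d.W ω, d.pnt P ω))
    (2 * (C * M) + 1) (by
      intro ω ω' hω hω' hw i
      have e1 := key ω hω (Finsupp.equivFunOnFinite.symm fun j => (i j : ℕ))
      have e2 := key ω' hω' (Finsupp.equivFunOnFinite.symm fun j => (i j : ℕ))
      have e3 : d.ht P ω = d.ht P ω' := (Prod.ext_iff.1 (Prod.ext_iff.1 hw).2).2
      rw [← e3] at e2
      refine Pool.Agent.H1.OVN.floor_near ?_
      rw [abs_le] at e1 e2 ⊢
      constructor <;> linarith [e1.1, e1.2, e2.1, e2.2])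
  refine le_trans (CH_mono_left hp.nonneg ?_) h2
  intro ω ω' _ _ hh
  simp only [Prod.mk.injEq] at hh
  obtain ⟨g1, g2, g3⟩ := hh
  have g4 : d.cel P ω = d.cel P ω' := (Prod.ext_iff.1 g3).1
  have g5 : hz P (d.ger P ω) = hz P (d.ger P ω') := by
    funext s
    by_cases hs : ∀ j, s j ≤ K
    · have := congrFun g1 fun j => ⟨s j, Nat.lt_succ_of_le (hs j)⟩
      simp only [hV] at this
      have e : (Finsupp.equivFunOnFinite.symm fun j => s j) = s := by
        ext j
        rfl
      rwa [e] at this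
    · push Not at hs
      unfold hz SDat.ger
      rw [Pool.Agent.H1.OVN.pul_coeff (hd.deg _) _ _ _ hs,
        Pool.Agent.H1.OVN.pul_coeff (hd.deg _) _ _ _ hs]
  unfold SDat.ctx
  rw [g2, g4, g5]

theorem sta_thm : STAStmt := sta_of pco_thm

end Pool.OVN
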