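import Pool.Agent.H65.OVN.Box5
import Pool.Agent.H65.OVN.Cor
import Pool.Agent.H65.OVN.Sta
import Pool.Agent.H50.OVN.Ov
import Pool.Agent.H44.OVN.Hgt
import Pool.Agent.H1.OVN.Cell
import Pool.Agent.H49.FRF.Fr

set_option autoImplicit false

namespace Pool.OVN

theorem box_of_nk (h : NKStmt) : BOXStmt :=
  box_thm h Pool.Agent.H1.OVN.rdn_thm hgt_thm

theorem flat_of_nk (h : NKStmt) : FLATStmt := flat_of_box (box_of_nk h)

theorem ov_of_nk (h : NKStmt) : OVStmt :=
  ov_of_flat (flat_of_nk h) Pool.Agent.H1.OVN.rup_thm sta_thm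

theorem fr_of_nk (h : NKStmt) : FRStmt := fr_of_box (box_of_nk h)

end Pool.OVN
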